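import Mathlib

/-!
Tools for the (B)-inequality for measures built from `L_p` seminorms: the one-dimensional
Prekopa-Leindler inequality, the mixing step, and the Pareto approximation of stable laws.
-/

set_option autoImplicit false
open MeasureTheory Set Filter Topology
open scoped ENNReal

namespace Pool.Agent.Helper584.BT

/-- weighted integral of `exp (-∑ v_j N_j)` -/
noncomputable def G {E : Type*} [MeasurableSpace E] (μ : Measure E) {n : ℕ} (N : Fin n → E → ℝ)
    (Φ : E → ℝ≥0∞) (v : Fin n → ℝ) : ℝ≥0∞ :=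
  ∫⁻ x, ENNReal.ofReal (Real.exp (-∑ j, v j * N j x)) * Φ x ∂μ

/-- the multiplicative midpoint inequality for a triple of weights -/
def TP {E : Type*} [MeasurableSpace E] (μ : Measure E) {n : ℕ} (N : Fin n → E → ℝ)
    (Φ₁ Φ₂ Φ₃ : E → ℝ≥0∞) : Prop :=
  ∀ v v' : Fin n → ℝ, (∀ j, 0 < v j) → (∀ j, 0 < v' j) →
    G μ N Φ₁ v * G μ N Φ₂ v' ≤ (G μ N Φ₃ (fun j => Real.sqrt (v j * v' j))) ^ 2

/-- Laplace transform of the density `h` on the half line -/
noncomputable def lap (h : ℝ → ℝ≥0∞) (l : ℝ) : ℝ≥0∞ :=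
  ∫⁻ s in Ioi (0 : ℝ), h s * ENNReal.ofReal (Real.exp (-(l * s)))

/-- Pareto density with index `α` -/
noncomputable def pareto (α s : ℝ) : ℝ≥0∞ :=
  if 1 ≤ s then ENNReal.ofReal (α * s ^ (-1 - α)) else 0

/-- the constant of the stable limit -/
noncomputable def C (α : ℝ) : ℝ := ∫ r in Ioi (0 : ℝ), α * r ^ (-1 - α) * (1 - Real.exp (-r))

/-- one-dimensional Brunn-Minkowski, compact case -/
theorem bm_compact {K L C : Set ℝ} (hK : IsCompact K) (hL : IsCompact L)
    (hK' : K.Nonempty) (hL' : L.Nonempty)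
    (hC : ∀ x ∈ K, ∀ y ∈ L, (x + y) / 2 ∈ C) :
    volume K + volume L ≤ 2 * volume C := by
  obtain ⟨a, ha, hamax⟩ := hK.exists_isMaxOn hK' continuousOn_id
  obtain ⟨b, hb, hbmin⟩ := hL.exists_isMinOn hL' continuousOn_id
  have hamax' : ∀ x ∈ K, x ≤ a := fun x hx => hamax hx
  have hbmin' : ∀ y ∈ L, b ≤ y := fun y hy => hbmin hy
  set S1 : Set ℝ := (fun x => (x + b) / 2) '' K with hS1
  set S2 : Set ℝ := (fun y => (a + y) / 2) '' L with hS2
  have hS1c : IsCompact S1 := hK.image (by fun_prop)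
  have hS2c : IsCompact S2 := hL.image (by fun_prop)
  have h1 : S1 ∪ S2 ⊆ C := by
    rintro z (⟨x, hx, rfl⟩ | ⟨y, hy, rfl⟩)
    · exact hC x hx b hb
    · exact hC a ha y hy
  have hint : volume (S1 ∩ S2) = 0 := by
    refine measure_mono_null (t := {(a + b) / 2}) ?_ (by simp)
    rintro z ⟨⟨x, hx, hxz⟩, ⟨y, hy, hyz⟩⟩
    simp only at hxz hyz
    have e1 := hamax' x hx
    have e2 := hbmin' y hy
    simp only [mem_singleton_iff]
    linarith
  have hv1 : volume S1 = ENNReal.ofReal (1 / 2) * volume K := by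
    have : S1 = (fun x => x + b / 2) '' ((fun x => (1 / 2 : ℝ) * x) '' K) := by
      rw [hS1, image_image]
      congr 1
      ext x; ring
    rw [this]
    have e1 : volume ((fun x : ℝ => x + b / 2) '' ((fun x => (1 / 2 : ℝ) * x) '' K))
        = volume ((fun x => (1 / 2 : ℝ) * x) '' K) := by
      simp
    rw [e1]
    have e2 := Measure.addHaar_image_homothety (volume : Measure ℝ) (0 : ℝ) (1 / 2 : ℝ) K
    have e3 : (fun x => (1 / 2 : ℝ) * x) '' K = (AffineMap.homothety (0 : ℝ) (1 / 2 : ℝ)) '' K := by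
      congr 1
      ext x
      simp [AffineMap.homothety_apply]
    rw [e3, e2]
    norm_num
  have hv2 : volume S2 = ENNReal.ofReal (1 / 2) * volume L := by
    have : S2 = (fun x => x + a / 2) '' ((fun x => (1 / 2 : ℝ) * x) '' L) := by
      rw [hS2, image_image]
      congr 1
      ext x; ring
    rw [this]
    have e1 : volume ((fun x : ℝ => x + a / 2) '' ((fun x => (1 / 2 : ℝ) * x) '' L))
        = volume ((fun x => (1 / 2 : ℝ) * x) '' L) := by
      simp
    rw [e1]
    have e2 := Measure.addHaar_image_homothety (volume : Measure ℝ) (0 : ℝ) (1 / 2 : ℝ) L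
    have e3 : (fun x => (1 / 2 : ℝ) * x) '' L = (AffineMap.homothety (0 : ℝ) (1 / 2 : ℝ)) '' L := by
      congr 1
      ext x
      simp [AffineMap.homothety_apply]
    rw [e3, e2]
    norm_num
  have hu : volume (S1 ∪ S2) + volume (S1 ∩ S2) = volume S1 + volume S2 :=
    measure_union_add_inter S1 hS2c.measurableSet
  rw [hint, add_zero] at hu
  have h2 : volume S1 + volume S2 ≤ volume C := by
    rw [← hu]; exact measure_mono h1
  rw [hv1, hv2] at h2
  have h3 : (2 : ℝ≥0∞) * (ENNReal.ofReal (1 / 2)) = 1 := by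
    rw [show (2 : ℝ≥0∞) = ENNReal.ofReal 2 by simp, ← ENNReal.ofReal_mul (by norm_num)]
    norm_num
  calc volume K + volume L = 2 * (ENNReal.ofReal (1 / 2) * volume K + ENNReal.ofReal (1 / 2) * volume L) := by
        rw [mul_add, ← mul_assoc, ← mul_assoc, h3, one_mul, one_mul]
    _ ≤ 2 * volume C := by gcongr

theorem bm {A B C : Set ℝ} (hA : MeasurableSet A) (hB : MeasurableSet B)
    (hA' : A.Nonempty) (hB' : B.Nonempty)
    (hC : ∀ x ∈ A, ∀ y ∈ B, (x + y) / 2 ∈ C) :
    volume A + volume B ≤ 2 * volume C := by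
  obtain ⟨a, ha⟩ := hA'
  obtain ⟨b, hb⟩ := hB'
  have key : ∀ K, K ⊆ A → IsCompact K → ∀ L, L ⊆ B → IsCompact L →
      volume K + volume L ≤ 2 * volume C := by
    intro K hKA hK L hLB hL
    have h := bm_compact (K := insert a K) (L := insert b L) (C := C) (hK.insert a) (hL.insert b)
      (insert_nonempty _ _) (insert_nonempty _ _) (fun x hx y hy => hC x (insert_subset ha hKA hx) y
        (insert_subset hb hLB hy))
    refine le_trans ?_ h
    gcongr
    · exact subset_insert _ _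
    · exact subset_insert _ _
  rw [hA.measure_eq_iSup_isCompact, hB.measure_eq_iSup_isCompact]
  simp only [iSup_and']
  refine ENNReal.biSup_add_biSup_le' ⟨∅, empty_subset _, isCompact_empty⟩
    ⟨∅, empty_subset _, isCompact_empty⟩ ?_
  rintro K ⟨hKA, hK⟩ L ⟨hLB, hL⟩
  exact key K hKA hK L hLB hL

/-- one-dimensional Prekopa-Leindler, normalised case -/
theorem pl1_aux (f g h : ℝ → ℝ) (hf : Measurable f) (hg : Measurable g) (hh : Measurable h)
    (f0 : ∀ x, 0 ≤ f x) (g0 : ∀ x, 0 ≤ g x) (h0 : ∀ x, 0 ≤ h x)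
    (f1 : ∀ x, f x ≤ 1) (g1 : ∀ x, g x ≤ 1)
    (hfs : ∀ t, t < 1 → ∃ x, t < f x) (hgs : ∀ t, t < 1 → ∃ x, t < g x)
    (H : ∀ x y, f x * g y ≤ h ((x + y) / 2) ^ 2) :
    (∫⁻ x, ENNReal.ofReal (f x)) + (∫⁻ x, ENNReal.ofReal (g x))
      ≤ 2 * ∫⁻ x, ENNReal.ofReal (h x) := by
  rw [lintegral_eq_lintegral_meas_lt volume (Filter.Eventually.of_forall f0) hf.aemeasurable,
    lintegral_eq_lintegral_meas_lt volume (Filter.Eventually.of_forall g0) hg.aemeasurable,
    lintegral_eq_lintegral_meas_lt volume (Filter.Eventually.of_forall h0) hh.aemeasurable]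
  have hm : ∀ k : ℝ → ℝ, Measurable (fun t : ℝ => volume {a : ℝ | t < k a}) := fun k =>
    (Antitone.measurable (fun s t hst => measure_mono (fun a (ha : t < k a) =>
      show s < k a from lt_of_le_of_lt hst ha)))
  rw [← lintegral_add_left (hm f), ← lintegral_const_mul _ (hm h)]
  refine setLIntegral_mono' measurableSet_Ioi ?_
  intro t ht
  have ht0 : 0 < t := ht
  by_cases ht1 : t < 1
  · refine bm (hf measurableSet_Ioi) (hg measurableSet_Ioi) (hfs t ht1) (hgs t ht1) ?_
    intro x hx y hy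
    have hx' : t < f x := hx
    have hy' : t < g y := hy
    have hxy := H x y
    have h2 : t ^ 2 < h ((x + y) / 2) ^ 2 := by
      calc t ^ 2 = t * t := by ring
        _ < f x * g y := by
          apply mul_lt_mul'' hx' hy' ht0.le ht0.le
        _ ≤ _ := hxy
    exact lt_of_pow_lt_pow_left₀ 2 (h0 _) h2
  · push Not at ht1
    have e1 : {a : ℝ | t < f a} = ∅ := by
      ext a; simp; linarith [f1 a]
    have e2 : {a : ℝ | t < g a} = ∅ := by
      ext a; simp; linarith [g1 a]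
    simp [e1, e2]

theorem pl1_bdd (F G H : ℝ → ℝ≥0∞) (hF : Measurable F) (hG : Measurable G) (hH : Measurable H)
    (k : ℝ≥0∞) (hk : k ≠ ∞) (Fk : ∀ x, F x ≤ k) (Gk : ∀ x, G x ≤ k)
    (HH : ∀ x y, F x * G y ≤ H ((x + y) / 2) ^ 2) :
    (∫⁻ x, F x) * (∫⁻ x, G x) ≤ (∫⁻ x, H x) ^ 2 := by
  by_cases hM0 : (⨆ x, F x) = 0
  · have : ∀ x, F x = 0 := by simpa using hM0
    simp [this]
  by_cases hN0 : (⨆ x, G x) = 0
  · have : ∀ x, G x = 0 := by simpa using hN0
    simp [this]
  set M := ⨆ x, F x with hM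
  set N := ⨆ x, G x with hN
  have hMk : M ≤ k := iSup_le Fk
  have hNk : N ≤ k := iSup_le Gk
  have hMt : M ≠ ∞ := ne_top_of_le_ne_top hk hMk
  have hNt : N ≠ ∞ := ne_top_of_le_ne_top hk hNk
  by_cases hC : (∫⁻ x, H x) = ∞
  · rw [hC]; simp
  set m := M.toReal with hm
  set n := N.toReal with hn
  have mpos : 0 < m := ENNReal.toReal_pos hM0 hMt
  have npos : 0 < n := ENNReal.toReal_pos hN0 hNt
  have hFt : ∀ x, F x ≠ ∞ := fun x => ne_top_of_le_ne_top hk (Fk x)
  have hGt : ∀ x, G x ≠ ∞ := fun x => ne_top_of_le_ne_top hk (Gk x)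
  have hmn : 0 < Real.sqrt (m * n) := Real.sqrt_pos.mpr (by positivity)
  set f : ℝ → ℝ := fun x => m⁻¹ * (F x).toReal with hf
  set g : ℝ → ℝ := fun x => n⁻¹ * (G x).toReal with hg
  set h' : ℝ → ℝ≥0∞ := fun x => min (ENNReal.ofReal (Real.sqrt (m * n))⁻¹ * H x) 1 with hh'
  set h : ℝ → ℝ := fun x => (h' x).toReal with hh
  have h't : ∀ x, h' x ≠ ∞ := fun x => ne_top_of_le_ne_top ENNReal.one_ne_top (min_le_right _ _)
  have f0 : ∀ x, 0 ≤ f x := fun x => by positivity
  have g0 : ∀ x, 0 ≤ g x := fun x => by positivity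
  have h0 : ∀ x, 0 ≤ h x := fun x => ENNReal.toReal_nonneg
  have FM : ∀ x, (F x).toReal ≤ m := fun x => ENNReal.toReal_mono hMt (le_iSup F x)
  have GN : ∀ x, (G x).toReal ≤ n := fun x => ENNReal.toReal_mono hNt (le_iSup G x)
  have f1 : ∀ x, f x ≤ 1 := fun x => by
    have := FM x
    simp only [hf]
    rw [inv_mul_le_iff₀ mpos]; linarith
  have g1 : ∀ x, g x ≤ 1 := fun x => by
    have := GN x
    simp only [hg]
    rw [inv_mul_le_iff₀ npos]; linarith
  have hfs : ∀ t, t < 1 → ∃ x, t < f x := by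
    intro t ht
    by_cases ht0 : t < 0
    · exact ⟨0, lt_of_lt_of_le ht0 (f0 0)⟩
    push Not at ht0
    have h1 : ENNReal.ofReal (t * m) < M := by
      rw [ENNReal.ofReal_lt_iff_lt_toReal (by positivity) hMt]
      nlinarith
    obtain ⟨x, hx⟩ := lt_iSup_iff.mp h1
    refine ⟨x, ?_⟩
    rw [ENNReal.ofReal_lt_iff_lt_toReal (by positivity) (hFt x)] at hx
    simp only [hf]
    rw [lt_inv_mul_iff₀ mpos]; linarith
  have hgs : ∀ t, t < 1 → ∃ x, t < g x := by
    intro t ht
    by_cases ht0 : t < 0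
    · exact ⟨0, lt_of_lt_of_le ht0 (g0 0)⟩
    push Not at ht0
    have h1 : ENNReal.ofReal (t * n) < N := by
      rw [ENNReal.ofReal_lt_iff_lt_toReal (by positivity) hNt]
      nlinarith
    obtain ⟨x, hx⟩ := lt_iSup_iff.mp h1
    refine ⟨x, ?_⟩
    rw [ENNReal.ofReal_lt_iff_lt_toReal (by positivity) (hGt x)] at hx
    simp only [hg]
    rw [lt_inv_mul_iff₀ npos]; linarith
  have H1 : ∀ x y, f x * g y ≤ h ((x + y) / 2) ^ 2 := by
    intro x y
    simp only [hh, hh']
    rcases le_total (ENNReal.ofReal (Real.sqrt (m * n))⁻¹ * H ((x + y) / 2)) 1 with hle | hle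
    · rw [min_eq_left hle]
      have hHt : H ((x + y) / 2) ≠ ∞ := by
        intro hinf
        rw [hinf, ENNReal.mul_top (by simpa using hmn)] at hle
        simp at hle
      rw [ENNReal.toReal_mul, ENNReal.toReal_ofReal (by positivity)]
      have h2 := ENNReal.toReal_mono (by finiteness) (HH x y)
      rw [ENNReal.toReal_mul, ENNReal.toReal_pow] at h2
      have h3 : (Real.sqrt (m * n)) ^ 2 = m * n := Real.sq_sqrt (by positivity)
      simp only [hf, hg]
      rw [mul_pow, inv_pow, h3, mul_inv]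
      calc m⁻¹ * (F x).toReal * (n⁻¹ * (G y).toReal)
          = m⁻¹ * n⁻¹ * ((F x).toReal * (G y).toReal) := by ring
        _ ≤ _ := by gcongr
    · rw [min_eq_right hle]
      simp only [ENNReal.toReal_one, one_pow]
      exact mul_le_one₀ (f1 x) (g0 y) (g1 y)
  have hfm : Measurable f := (hF.ennreal_toReal).const_mul _
  have hgm : Measurable g := (hG.ennreal_toReal).const_mul _
  have hhm : Measurable h := ((hH.const_mul _).min measurable_const).ennreal_toReal
  have main := pl1_aux f g h hfm hgm hhm f0 g0 h0 f1 g1 hfs hgs H1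
  have e1 : (∫⁻ x, ENNReal.ofReal (f x)) = ENNReal.ofReal m⁻¹ * ∫⁻ x, F x := by
    rw [← lintegral_const_mul _ hF]
    refine lintegral_congr (fun x => ?_)
    simp only [hf]
    rw [ENNReal.ofReal_mul (by positivity), ENNReal.ofReal_toReal (hFt x)]
  have e2 : (∫⁻ x, ENNReal.ofReal (g x)) = ENNReal.ofReal n⁻¹ * ∫⁻ x, G x := by
    rw [← lintegral_const_mul _ hG]
    refine lintegral_congr (fun x => ?_)
    simp only [hg]
    rw [ENNReal.ofReal_mul (by positivity), ENNReal.ofReal_toReal (hGt x)]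
  have e3 : (∫⁻ x, ENNReal.ofReal (h x)) ≤ ENNReal.ofReal (Real.sqrt (m * n))⁻¹ * ∫⁻ x, H x := by
    rw [← lintegral_const_mul _ hH]
    refine lintegral_mono (fun x => ?_)
    simp only [hh]
    rw [ENNReal.ofReal_toReal (h't x)]
    exact min_le_left _ _
  have main2 : ENNReal.ofReal m⁻¹ * (∫⁻ x, F x) + ENNReal.ofReal n⁻¹ * (∫⁻ x, G x)
      ≤ 2 * (ENNReal.ofReal (Real.sqrt (m * n))⁻¹ * ∫⁻ x, H x) := by
    rw [← e1, ← e2]
    refine main.trans ?_
    gcongr
  set A := ∫⁻ x, F x with hA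
  set B := ∫⁻ x, G x with hB
  set C := ∫⁻ x, H x with hC'
  have hR : 2 * (ENNReal.ofReal (Real.sqrt (m * n))⁻¹ * C) ≠ ∞ := by finiteness
  have hAt : A ≠ ∞ := by
    intro hinf
    rw [hinf, ENNReal.mul_top (by simpa using mpos)] at main2
    simp only [top_add, top_le_iff] at main2
    exact hR main2
  have hBt : B ≠ ∞ := by
    intro hinf
    rw [hinf, ENNReal.mul_top (by simpa using npos)] at main2
    simp only [add_top, top_le_iff] at main2
    exact hR main2
  have main3 := ENNReal.toReal_mono hR main2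
  rw [ENNReal.toReal_add (by finiteness) (by finiteness), ENNReal.toReal_mul, ENNReal.toReal_mul,
    ENNReal.toReal_mul, ENNReal.toReal_mul, ENNReal.toReal_ofReal (by positivity),
    ENNReal.toReal_ofReal (by positivity), ENNReal.toReal_ofReal (by positivity)] at main3
  have hfin : A.toReal * B.toReal ≤ C.toReal ^ 2 := by
    have a0 : 0 ≤ A.toReal := ENNReal.toReal_nonneg
    have b0 : 0 ≤ B.toReal := ENNReal.toReal_nonneg
    have c0 : 0 ≤ C.toReal := ENNReal.toReal_nonneg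
    have h3 : (Real.sqrt (m * n)) ^ 2 = m * n := Real.sq_sqrt (by positivity)
    have hsq : (m⁻¹ * A.toReal + n⁻¹ * B.toReal) ^ 2
        ≤ (2 * ((Real.sqrt (m * n))⁻¹ * C.toReal)) ^ 2 := by
      have h2 : (ENNReal.toReal 2) = 2 := by simp
      rw [h2] at main3
      gcongr
    have hsq2 : (2 * ((Real.sqrt (m * n))⁻¹ * C.toReal)) ^ 2
        = 4 * (m⁻¹ * n⁻¹) * C.toReal ^ 2 := by
      rw [mul_pow, mul_pow, inv_pow, h3, mul_inv]; ring
    have hsq3 : 4 * (m⁻¹ * n⁻¹) * (A.toReal * B.toReal)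
        ≤ (m⁻¹ * A.toReal + n⁻¹ * B.toReal) ^ 2 := by
      nlinarith [sq_nonneg (m⁻¹ * A.toReal - n⁻¹ * B.toReal)]
    have h4 : 4 * (m⁻¹ * n⁻¹) * (A.toReal * B.toReal) ≤ 4 * (m⁻¹ * n⁻¹) * C.toReal ^ 2 := by
      linarith
    have h5 : 0 < 4 * (m⁻¹ * n⁻¹) := by positivity
    exact le_of_mul_le_mul_left h4 h5
  rw [← ENNReal.ofReal_toReal hAt, ← ENNReal.ofReal_toReal hBt, ← ENNReal.ofReal_toReal hC,
    ← ENNReal.ofReal_mul ENNReal.toReal_nonneg, ← ENNReal.ofReal_pow ENNReal.toReal_nonneg]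
  exact ENNReal.ofReal_le_ofReal hfin

/-- one-dimensional Prekopa-Leindler inequality -/
theorem pl1 (F G H : ℝ → ℝ≥0∞) (hF : Measurable F) (hG : Measurable G) (hH : Measurable H)
    (HH : ∀ x y, F x * G y ≤ H ((x + y) / 2) ^ 2) :
    (∫⁻ x, F x) * (∫⁻ x, G x) ≤ (∫⁻ x, H x) ^ 2 := by
  have trunc : ∀ K : ℝ → ℝ≥0∞, Measurable K →
      (∫⁻ x, K x) = ⨆ k : ℕ, ∫⁻ x, min (K x) (k : ℝ≥0∞) := by
    intro K hK
    rw [← lintegral_iSup (fun k => hK.min measurable_const)]
    · refine lintegral_congr (fun x => ?_)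
      rw [← inf_iSup_eq, ENNReal.iSup_natCast]
      simp
    · intro k l hkl x
      simp only
      gcongr
  rw [trunc F hF, trunc G hG, ENNReal.iSup_mul]
  refine iSup_le (fun k => ?_)
  rw [ENNReal.mul_iSup]
  refine iSup_le (fun l => ?_)
  refine pl1_bdd _ _ H (hF.min measurable_const) (hG.min measurable_const) hH
    (max (k : ℝ≥0∞) l) (by finiteness) (fun x => ?_) (fun x => ?_) (fun x y => ?_)
  · exact (min_le_right _ _).trans (le_max_left _ _)
  · exact (min_le_right _ _).trans (le_max_right _ _)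
  · refine le_trans ?_ (HH x y)
    gcongr
    · exact min_le_left _ _
    · exact min_le_left _ _

/-- multiplicative form on the half line -/
theorem mpl1 (F G H : ℝ → ℝ≥0∞) (hF : Measurable F) (hG : Measurable G) (hH : Measurable H)
    (HH : ∀ x y, 0 < x → 0 < y → F x * G y ≤ H (Real.sqrt (x * y)) ^ 2) :
    (∫⁻ x in Ioi 0, F x) * (∫⁻ x in Ioi 0, G x) ≤ (∫⁻ x in Ioi 0, H x) ^ 2 := by
  have cov : ∀ K : ℝ → ℝ≥0∞, (∫⁻ x in Ioi 0, K x)
      = ∫⁻ x, ENNReal.ofReal (Real.exp x) * K (Real.exp x) := by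
    intro K
    have h := lintegral_image_eq_lintegral_abs_deriv_mul (s := univ) (f := Real.exp)
      (f' := Real.exp) MeasurableSet.univ (fun x _ => (Real.hasDerivAt_exp x).hasDerivWithinAt)
      (Real.exp_injective.injOn) K
    rw [image_univ, Real.range_exp] at h
    rw [h]
    simp
  rw [cov F, cov G, cov H]
  refine pl1 _ _ _ (by fun_prop) (by fun_prop) (by fun_prop) (fun x y => ?_)
  have h1 := HH (Real.exp x) (Real.exp y) (Real.exp_pos x) (Real.exp_pos y)
  have h2 : Real.sqrt (Real.exp x * Real.exp y) = Real.exp ((x + y) / 2) := by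
    rw [← Real.exp_add, Real.sqrt_eq_iff_mul_self_eq (by positivity) (by positivity),
      ← Real.exp_add]
    congr 1; ring
  rw [h2] at h1
  calc ENNReal.ofReal (Real.exp x) * F (Real.exp x) * (ENNReal.ofReal (Real.exp y) * G (Real.exp y))
      = (ENNReal.ofReal (Real.exp x) * ENNReal.ofReal (Real.exp y))
        * (F (Real.exp x) * G (Real.exp y)) := by ring
    _ ≤ (ENNReal.ofReal (Real.exp x) * ENNReal.ofReal (Real.exp y))
        * H (Real.exp ((x + y) / 2)) ^ 2 := by gcongr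
    _ = (ENNReal.ofReal (Real.exp ((x + y) / 2)) * H (Real.exp ((x + y) / 2))) ^ 2 := by
        rw [← ENNReal.ofReal_mul (by positivity), ← Real.exp_add, mul_pow,
          ← ENNReal.ofReal_pow (by positivity), ← Real.exp_nat_mul]
        congr 3
        push_cast; ring


/-- shift of one coordinate -/
noncomputable def sh {n : ℕ} (v : Fin n → ℝ) (j : Fin n) (c : ℝ) : Fin n → ℝ :=
  fun i => v i + if i = j then c else 0

theorem exp_sh {E : Type*} {n : ℕ} (N : Fin n → E → ℝ) (v : Fin n → ℝ) (j : Fin n) (c : ℝ)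
    (x : E) : ENNReal.ofReal (Real.exp (-∑ i, sh v j c i * N i x)) =
      ENNReal.ofReal (Real.exp (-∑ i, v i * N i x)) * ENNReal.ofReal (Real.exp (-(c * N j x))) := by
  rw [← ENNReal.ofReal_mul (Real.exp_pos _).le, ← Real.exp_add]
  congr 2
  have : ∑ i, sh v j c i * N i x = ∑ i, v i * N i x + c * N j x := by
    unfold sh
    simp only [add_mul, Finset.sum_add_distrib, ite_mul, zero_mul, Finset.sum_ite_eq',
      Finset.mem_univ, if_true]
  rw [this]
  ring

theorem meas_exp {E : Type*} [MeasurableSpace E] {n : ℕ} (N : Fin n → E → ℝ)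
    (hN : ∀ j, Measurable (N j)) (v : Fin n → ℝ) :
    Measurable fun x => ENNReal.ofReal (Real.exp (-∑ i, v i * N i x)) := by
  refine ENNReal.measurable_ofReal.comp (Real.measurable_exp.comp (Measurable.neg ?_))
  exact Finset.measurable_fun_sum _ fun i _ => (hN i).const_mul (v i)

theorem lap_G {E : Type*} [MeasurableSpace E] (μ : Measure E) [SFinite μ] {n : ℕ}
    (N : Fin n → E → ℝ) (hN : ∀ j, Measurable (N j))
    (h : ℝ → ℝ≥0∞) (hh : Measurable h) (Φ : E → ℝ≥0∞) (m : Measurable Φ) (j : Fin n) (a : ℝ)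
    (v : Fin n → ℝ) :
    G μ N (fun x => lap h (a * N j x) * Φ x) v =
      ∫⁻ s in Ioi (0 : ℝ), h s * G μ N Φ (sh v j (a * s)) := by
  have hj := hN j
  have he := meas_exp N hN v
  calc G μ N (fun x => lap h (a * N j x) * Φ x) v
      = ∫⁻ x, (∫⁻ s in Ioi (0 : ℝ), ENNReal.ofReal (Real.exp (-∑ i, v i * N i x)) *
          (h s * ENNReal.ofReal (Real.exp (-(a * N j x * s))) * Φ x)) ∂μ := by
        unfold G lap
        refine lintegral_congr fun x => ?_
        rw [lintegral_const_mul, lintegral_mul_const]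
        · exact hh.mul (ENNReal.measurable_ofReal.comp (by fun_prop))
        · exact (hh.mul (ENNReal.measurable_ofReal.comp (by fun_prop))).mul_const _
    _ = ∫⁻ s in Ioi (0 : ℝ), (∫⁻ x, ENNReal.ofReal (Real.exp (-∑ i, v i * N i x)) *
          (h s * ENNReal.ofReal (Real.exp (-(a * N j x * s))) * Φ x) ∂μ) := by
        refine lintegral_lintegral_swap (Measurable.aemeasurable ?_)
        refine Measurable.mul (he.comp measurable_fst) (Measurable.mul (Measurable.mul
          (hh.comp measurable_snd) ?_) (m.comp measurable_fst))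
        refine ENNReal.measurable_ofReal.comp (Real.measurable_exp.comp (Measurable.neg ?_))
        exact ((hj.comp measurable_fst).const_mul a).mul measurable_snd
    _ = ∫⁻ s in Ioi (0 : ℝ), h s * G μ N Φ (sh v j (a * s)) := by
        refine lintegral_congr fun s => ?_
        unfold G
        rw [← lintegral_const_mul]
        · refine lintegral_congr fun x => ?_
          rw [exp_sh]
          have : a * N j x * s = a * s * N j x := by ring
          rw [this]
          ring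
        · exact (meas_exp N hN _).mul m

theorem G_anti {E : Type*} [MeasurableSpace E] (μ : Measure E) {n : ℕ}
    (N : Fin n → E → ℝ) (hN0 : ∀ j x, 0 ≤ N j x) (Φ : E → ℝ≥0∞) (v w : Fin n → ℝ)
    (hvw : ∀ i, v i ≤ w i) : G μ N Φ w ≤ G μ N Φ v := by
  unfold G
  refine lintegral_mono fun x => ?_
  have : ∑ i, v i * N i x ≤ ∑ i, w i * N i x :=
    Finset.sum_le_sum fun i _ => mul_le_mul_of_nonneg_right (hvw i) (hN0 i x)
  have h2 : ENNReal.ofReal (Real.exp (-∑ i, w i * N i x)) ≤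
      ENNReal.ofReal (Real.exp (-∑ i, v i * N i x)) :=
    ENNReal.ofReal_le_ofReal (Real.exp_le_exp.2 (neg_le_neg this))
  exact mul_le_mul' h2 le_rfl

theorem meas_G_sh {E : Type*} [MeasurableSpace E] (μ : Measure E) [SFinite μ] {n : ℕ}
    (N : Fin n → E → ℝ) (hN : ∀ j, Measurable (N j)) (Φ : E → ℝ≥0∞) (m : Measurable Φ)
    (j : Fin n) (a : ℝ) (v : Fin n → ℝ) :
    Measurable fun s => G μ N Φ (sh v j (a * s)) := by
  unfold G
  simp only [exp_sh]
  refine Measurable.lintegral_prod_right' (f := fun p : ℝ × E =>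
    ENNReal.ofReal (Real.exp (-∑ i, v i * N i p.2)) *
      ENNReal.ofReal (Real.exp (-(a * p.1 * N j p.2))) * Φ p.2) ?_
  have he := meas_exp N hN v
  refine Measurable.mul (Measurable.mul (he.comp measurable_snd) ?_) (m.comp measurable_snd)
  refine ENNReal.measurable_ofReal.comp (Real.measurable_exp.comp (Measurable.neg ?_))
  exact (measurable_fst.const_mul a).mul ((hN j).comp measurable_snd)

theorem sqrt_ineq {v v' a b x y : ℝ} (hv : 0 < v) (hv' : 0 < v') (ha : 0 < a) (hb : 0 < b)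
    (hx : 0 < x) (hy : 0 < y) :
    Real.sqrt (v * v') + Real.sqrt (a * b) * Real.sqrt (x * y) ≤
      Real.sqrt ((v + a * x) * (v' + b * y)) := by
  have e1 : Real.sqrt (a * b) * Real.sqrt (x * y) = Real.sqrt (a * x) * Real.sqrt (b * y) := by
    rw [← Real.sqrt_mul (by positivity), ← Real.sqrt_mul (by positivity)]
    congr 1
    ring
  rw [e1, Real.sqrt_mul hv.le]
  apply Real.le_sqrt_of_sq_le
  have h1 := Real.sq_sqrt hv.le
  have h2 := Real.sq_sqrt hv'.le
  have h3 := Real.sq_sqrt (show 0 ≤ a * x by positivity)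
  have h4 := Real.sq_sqrt (show 0 ≤ b * y by positivity)
  generalize Real.sqrt v = p at *
  generalize Real.sqrt v' = p' at *
  generalize Real.sqrt (a * x) = q at *
  generalize Real.sqrt (b * y) = q' at *
  rw [← h1, ← h2, ← h3, ← h4]
  nlinarith [sq_nonneg (p * q' - q * p')]

/-- J2: adding one Laplace factor preserves the inequality.  `pl` is the one-dimensional
multiplicative Prekopa-Leindler inequality. -/
theorem TP_step {E : Type*} [MeasurableSpace E] (μ : Measure E) [SFinite μ] {n : ℕ}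
    (pl : ∀ (F G H : ℝ → ℝ≥0∞), Measurable F → Measurable G → Measurable H →
      (∀ x y, 0 < x → 0 < y → F x * G y ≤ H (Real.sqrt (x * y)) ^ 2) →
      (∫⁻ x in Ioi (0 : ℝ), F x) * (∫⁻ x in Ioi (0 : ℝ), G x) ≤ (∫⁻ x in Ioi (0 : ℝ), H x) ^ 2)
    (N : Fin n → E → ℝ) (hN : ∀ j, Measurable (N j)) (hN0 : ∀ j x, 0 ≤ N j x)
    (h : ℝ → ℝ≥0∞) (hh : Measurable h)
    (hmul : ∀ s t, 0 < s → 0 < t → h s * h t ≤ h (Real.sqrt (s * t)) ^ 2)
    (Φ₁ Φ₂ Φ₃ : E → ℝ≥0∞) (m1 : Measurable Φ₁) (m2 : Measurable Φ₂) (m3 : Measurable Φ₃)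
    (H : TP μ N Φ₁ Φ₂ Φ₃) (j : Fin n) (a b : ℝ) (ha : 0 < a) (hb : 0 < b) :
    TP μ N (fun x => lap h (a * N j x) * Φ₁ x) (fun x => lap h (b * N j x) * Φ₂ x)
      (fun x => lap h (Real.sqrt (a * b) * N j x) * Φ₃ x) := by
  intro v v' hv hv'
  rw [lap_G μ N hN h hh Φ₁ m1, lap_G μ N hN h hh Φ₂ m2, lap_G μ N hN h hh Φ₃ m3]
  refine pl _ _ _ (hh.mul (meas_G_sh μ N hN Φ₁ m1 j a v)) (hh.mul (meas_G_sh μ N hN Φ₂ m2 j b v'))
    (hh.mul (meas_G_sh μ N hN Φ₃ m3 j _ _)) ?_
  intro x y hx hy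
  have hshpos : ∀ (w : Fin n → ℝ) (c : ℝ), (∀ i, 0 < w i) → 0 < c → ∀ i, 0 < sh w j c i := by
    intro w c hw hc i
    unfold sh
    have := hw i
    split_ifs <;> linarith
  have h1 := H (sh v j (a * x)) (sh v' j (b * y)) (hshpos v _ hv (by positivity))
    (hshpos v' _ hv' (by positivity))
  have h2 : G μ N Φ₃ (fun i => Real.sqrt (sh v j (a * x) i * sh v' j (b * y) i)) ≤
      G μ N Φ₃ (sh (fun i => Real.sqrt (v i * v' i)) j
        (Real.sqrt (a * b) * Real.sqrt (x * y))) := by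
    refine G_anti μ N hN0 Φ₃ _ _ fun i => ?_
    unfold sh
    by_cases hi : i = j
    · subst hi
      simp only [if_true]
      exact sqrt_ineq (hv i) (hv' i) ha hb hx hy
    · simp only [if_neg hi, add_zero]
      exact le_rfl
  calc h x * G μ N Φ₁ (sh v j (a * x)) * (h y * G μ N Φ₂ (sh v' j (b * y)))
      = (h x * h y) * (G μ N Φ₁ (sh v j (a * x)) * G μ N Φ₂ (sh v' j (b * y))) := by ring
    _ ≤ h (Real.sqrt (x * y)) ^ 2 *
        (G μ N Φ₃ (fun i => Real.sqrt (sh v j (a * x) i * sh v' j (b * y) i))) ^ 2 :=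
        mul_le_mul' (hmul x y hx hy) h1
    _ ≤ h (Real.sqrt (x * y)) ^ 2 *
        (G μ N Φ₃ (sh (fun i => Real.sqrt (v i * v' i)) j
          (Real.sqrt (a * b) * Real.sqrt (x * y)))) ^ 2 :=
        mul_le_mul' le_rfl (pow_le_pow_left' h2 2)
    _ = _ := by rw [← mul_pow]


theorem iSup_exp_aux (c : ℝ) (hc : 0 ≤ c) :
    ⨆ m : ℕ, ENNReal.ofReal (Real.exp (-((1 / ((m : ℝ) + 1)) * c))) = 1 := by
  refine iSup_eq_of_tendsto ?_ ?_
  · intro a b hab
    refine ENNReal.ofReal_le_ofReal (Real.exp_le_exp.2 ?_)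
    have h1 : (1 : ℝ) / ((b : ℝ) + 1) ≤ 1 / ((a : ℝ) + 1) := by
      refine one_div_le_one_div_of_le (by positivity) ?_
      have : (a : ℝ) ≤ b := by exact_mod_cast hab
      linarith
    have h2 := mul_le_mul_of_nonneg_right h1 hc
    linarith
  · have h1 : Tendsto (fun m : ℕ => (1 : ℝ) / ((m : ℝ) + 1)) atTop (𝓝 0) :=
      tendsto_one_div_add_atTop_nhds_zero_nat
    have h2 : Tendsto (fun m : ℕ => Real.exp (-((1 / ((m : ℝ) + 1)) * c))) atTop
        (𝓝 (Real.exp (-(0 * c)))) :=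
      (Real.continuous_exp.tendsto _).comp ((h1.mul_const c).neg)
    have h3 := ENNReal.tendsto_ofReal h2
    simpa using h3

theorem lintegral_eq_iSup_G {E : Type*} [MeasurableSpace E] (μ : Measure E) {n : ℕ}
    (N : Fin n → E → ℝ) (hN : ∀ j, Measurable (N j)) (hN0 : ∀ j x, 0 ≤ N j x)
    (Φ : E → ℝ≥0∞) (m1 : Measurable Φ) :
    ∫⁻ x, Φ x ∂μ = ⨆ m : ℕ, G μ N Φ (fun _ => 1 / ((m : ℝ) + 1)) := by
  unfold G
  rw [← lintegral_iSup]
  · refine lintegral_congr fun x => ?_
    rw [← ENNReal.iSup_mul]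
    have h := iSup_exp_aux (∑ j, N j x) (Finset.sum_nonneg fun j _ => hN0 j x)
    have h2 : (fun m : ℕ => ENNReal.ofReal (Real.exp (-∑ j, (1 / ((m : ℝ) + 1)) * N j x))) =
        fun m : ℕ => ENNReal.ofReal (Real.exp (-((1 / ((m : ℝ) + 1)) * ∑ j, N j x))) := by
      funext m
      rw [Finset.mul_sum]
    rw [h2, h, one_mul]
  · intro m
    refine Measurable.mul (Measurable.ennreal_ofReal (Real.measurable_exp.comp ?_)) m1
    exact (Finset.measurable_sum _ fun j _ => (hN j).const_mul _).neg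
  · intro a b hab x
    refine mul_le_mul_left (ENNReal.ofReal_le_ofReal (Real.exp_le_exp.2 ?_)) _
    refine neg_le_neg (Finset.sum_le_sum fun j _ => mul_le_mul_of_nonneg_right ?_ (hN0 j x))
    refine one_div_le_one_div_of_le (by positivity) ?_
    have : (a : ℝ) ≤ b := by exact_mod_cast hab
    linarith

theorem G_mono {E : Type*} [MeasurableSpace E] (μ : Measure E) {n : ℕ}
    (N : Fin n → E → ℝ) (hN0 : ∀ j x, 0 ≤ N j x)
    (Φ : E → ℝ≥0∞) {a b : ℕ} (hab : a ≤ b) :
    G μ N Φ (fun _ => 1 / ((a : ℝ) + 1)) ≤ G μ N Φ (fun _ => 1 / ((b : ℝ) + 1)) := by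
  unfold G
  refine lintegral_mono fun x => ?_
  refine mul_le_mul_left (ENNReal.ofReal_le_ofReal (Real.exp_le_exp.2 ?_)) _
  refine neg_le_neg (Finset.sum_le_sum fun j _ => mul_le_mul_of_nonneg_right ?_ (hN0 j x))
  refine one_div_le_one_div_of_le (by positivity) ?_
  have : (a : ℝ) ≤ b := by exact_mod_cast hab
  linarith

/-- J3: letting the weights tend to zero -/
theorem TP_zero {E : Type*} [MeasurableSpace E] (μ : Measure E) {n : ℕ}
    (N : Fin n → E → ℝ) (hN : ∀ j, Measurable (N j)) (hN0 : ∀ j x, 0 ≤ N j x)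
    (Φ₁ Φ₂ Φ₃ : E → ℝ≥0∞) (m1 : Measurable Φ₁) (m2 : Measurable Φ₂) (m3 : Measurable Φ₃)
    (H : TP μ N Φ₁ Φ₂ Φ₃) :
    (∫⁻ x, Φ₁ x ∂μ) * (∫⁻ x, Φ₂ x ∂μ) ≤ (∫⁻ x, Φ₃ x ∂μ) ^ 2 := by
  have key : ∀ m : ℕ, G μ N Φ₁ (fun _ => 1 / ((m : ℝ) + 1)) *
      G μ N Φ₂ (fun _ => 1 / ((m : ℝ) + 1)) ≤ (∫⁻ x, Φ₃ x ∂μ) ^ 2 := by
    intro m
    have hp : (0 : ℝ) < 1 / ((m : ℝ) + 1) := by positivity
    refine (H _ _ (fun _ => hp) (fun _ => hp)).trans ?_
    refine pow_le_pow_left' ?_ 2
    unfold G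
    refine lintegral_mono fun x => ?_
    have h1 : ENNReal.ofReal (Real.exp (-∑ j,
        Real.sqrt (1 / ((m : ℝ) + 1) * (1 / ((m : ℝ) + 1))) * N j x)) ≤ 1 := by
      rw [← ENNReal.ofReal_one]
      refine ENNReal.ofReal_le_ofReal (Real.exp_le_one_iff.2 ?_)
      exact neg_nonpos.2 (Finset.sum_nonneg fun j _ => mul_nonneg (Real.sqrt_nonneg _) (hN0 j x))
    calc _ ≤ 1 * Φ₃ x := mul_le_mul_left h1 _
      _ = Φ₃ x := one_mul _
  rw [lintegral_eq_iSup_G μ N hN hN0 Φ₁ m1, lintegral_eq_iSup_G μ N hN hN0 Φ₂ m2,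
    ENNReal.iSup_mul]
  refine iSup_le fun i => ?_
  rw [ENNReal.mul_iSup]
  refine iSup_le fun j => ?_
  refine le_trans ?_ (key (max i j))
  exact mul_le_mul' (G_mono μ N hN0 Φ₁ (le_max_left i j)) (G_mono μ N hN0 Φ₂ (le_max_right i j))


/-- J4: the Pareto density is log-linear in multiplicative coordinates on `[1, ∞)` -/
theorem pareto_mul (α : ℝ) (hα : 0 < α) (s t : ℝ) (hs : 0 < s) (ht : 0 < t) :
    pareto α s * pareto α t ≤ pareto α (Real.sqrt (s * t)) ^ 2 := by
  unfold pareto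
  by_cases h1 : 1 ≤ s
  · by_cases h2 : 1 ≤ t
    · have hst : 1 ≤ s * t := one_le_mul_of_one_le_of_one_le h1 h2
      have h3 : 1 ≤ Real.sqrt (s * t) := Real.one_le_sqrt.2 hst
      have h0 : 0 < s * t := by positivity
      rw [if_pos h1, if_pos h2, if_pos h3, ← ENNReal.ofReal_mul (by positivity),
        ← ENNReal.ofReal_pow (by positivity)]
      apply ENNReal.ofReal_le_ofReal
      apply le_of_eq
      have e : (Real.sqrt (s * t) ^ (-1 - α)) ^ 2 = s ^ (-1 - α) * t ^ (-1 - α) := by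
        rw [← Real.mul_rpow hs.le ht.le, pow_two, ← Real.mul_rpow (Real.sqrt_nonneg _)
          (Real.sqrt_nonneg _), Real.mul_self_sqrt h0.le]
      rw [mul_pow, e]
      ring
    · rw [if_neg h2, mul_zero]
      exact zero_le
  · rw [if_neg h1, zero_mul]
    exact zero_le

theorem measurable_pareto (α : ℝ) : Measurable (pareto α) := by
  unfold pareto
  apply Measurable.ite measurableSet_Ici _ measurable_const
  exact ((measurable_id.pow_const _).const_mul α).ennreal_ofReal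

theorem pareto_tail (α : ℝ) (hα : 0 < α) (c : ℝ) (hc : 0 < c) :
    ∫⁻ s in Ioi c, ENNReal.ofReal (α * s ^ (-1 - α)) = ENNReal.ofReal (c ^ (-α)) := by
  have hint : IntegrableOn (fun s : ℝ => s ^ (-1 - α)) (Ioi c) :=
    integrableOn_Ioi_rpow_of_lt (by linarith) hc
  rw [← ofReal_integral_eq_lintegral_ofReal]
  · rw [integral_const_mul, integral_Ioi_rpow_of_lt (by linarith) hc]
    congr 1
    have : -1 - α + 1 = -α := by ring
    rw [this]
    field_simp
  · exact hint.const_mul α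
  · rw [Filter.EventuallyLE, ae_restrict_iff' measurableSet_Ioi]
    refine Filter.Eventually.of_forall fun s hs => ?_
    have : 0 < s := lt_trans hc hs
    show 0 ≤ α * s ^ (-1 - α)
    positivity

theorem lap_pareto_split (α : ℝ) (hα : 0 < α) (l : ℝ) (hl : 0 ≤ l) (c : ℝ) (hc : 1 ≤ c) :
    lap (pareto α) l ≤ ENNReal.ofReal (1 - c ^ (-α) + Real.exp (-(l * c)) * c ^ (-α)) := by
  have hc0 : 0 < c := by linarith
  have hcα : c ^ (-α) ≤ 1 := Real.rpow_le_one_of_one_le_of_nonpos hc (by linarith)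
  have hcα0 : 0 ≤ c ^ (-α) := by positivity
  have h1 : lap (pareto α) l ≤ ∫⁻ s in Ioi (1 : ℝ), ENNReal.ofReal (α * s ^ (-1 - α)) *
      ENNReal.ofReal (Real.exp (-(l * s))) := by
    unfold lap
    rw [← lintegral_indicator measurableSet_Ioi, ← lintegral_indicator measurableSet_Ioi]
    apply lintegral_mono_ae
    have hne : ∀ᵐ s : ℝ, s ≠ 1 := by
      rw [ae_iff]
      simp
    filter_upwards [hne] with s hs
    by_cases h2 : s ∈ Ioi (1 : ℝ)
    · have h3 : s ∈ Ioi (0 : ℝ) := by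
        show 0 < s
        have : 1 < s := h2
        linarith
      rw [indicator_of_mem h2, indicator_of_mem h3]
      unfold pareto
      rw [if_pos (le_of_lt h2)]
    · rw [indicator_of_notMem h2]
      by_cases h3 : s ∈ Ioi (0 : ℝ)
      · rw [indicator_of_mem h3]
        unfold pareto
        rw [if_neg, zero_mul]
        intro h4
        exact h2 (lt_of_le_of_ne h4 (Ne.symm hs))
      · rw [indicator_of_notMem h3]
  refine h1.trans ?_
  have hun : Ioi (1 : ℝ) = Ioc 1 c ∪ Ioi c := (Ioc_union_Ioi_eq_Ioi hc).symm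
  have hdis : Disjoint (Ioc (1 : ℝ) c) (Ioi c) := by
    rw [Set.disjoint_left]
    intro x hx hx'
    exact absurd hx.2 (not_le.2 hx')
  have htot : ∫⁻ s in Ioc (1 : ℝ) c, ENNReal.ofReal (α * s ^ (-1 - α)) =
      ENNReal.ofReal (1 - c ^ (-α)) := by
    have e1 := pareto_tail α hα 1 one_pos
    rw [hun, lintegral_union measurableSet_Ioi hdis, pareto_tail α hα c hc0, Real.one_rpow] at e1
    rw [ENNReal.ofReal_sub _ hcα0]
    exact ENNReal.eq_sub_of_add_eq ENNReal.ofReal_ne_top e1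
  rw [hun, lintegral_union measurableSet_Ioi hdis, ENNReal.ofReal_add (by linarith) (by positivity)]
  apply add_le_add
  · rw [← htot]
    apply setLIntegral_mono' measurableSet_Ioc
    intro s hs
    have h2 : ENNReal.ofReal (Real.exp (-(l * s))) ≤ 1 := by
      rw [ENNReal.ofReal_le_one]
      apply Real.exp_le_one_iff.2
      have : 0 ≤ l * s := mul_nonneg hl (by linarith [hs.1])
      linarith
    calc ENNReal.ofReal (α * s ^ (-1 - α)) * ENNReal.ofReal (Real.exp (-(l * s))) ≤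
        ENNReal.ofReal (α * s ^ (-1 - α)) * 1 := by gcongr
      _ = _ := mul_one _
  · rw [ENNReal.ofReal_mul (Real.exp_pos _).le, ← pareto_tail α hα c hc0]
    have hmm : Measurable (fun s : ℝ => ENNReal.ofReal (α * s ^ (-1 - α))) :=
      ((measurable_id.pow_const _).const_mul α).ennreal_ofReal
    rw [← lintegral_const_mul _ hmm]
    apply setLIntegral_mono' measurableSet_Ioi
    intro s hs
    rw [mul_comm]
    have hs' : c < s := hs
    have h2 : Real.exp (-(l * s)) ≤ Real.exp (-(l * c)) := by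
      apply Real.exp_le_exp.2
      nlinarith
    gcongr

/-- J4: upper bound for the Laplace transform of the Pareto law -/
theorem lap_pareto_le (α : ℝ) (hα : 0 < α) (hα1 : α < 1) (l : ℝ) (hl : 0 ≤ l) :
    lap (pareto α) l ≤ ENNReal.ofReal (1 / (1 + l ^ α / 2)) := by
  rcases le_total l 1 with h | h
  · rcases hl.eq_or_lt with h0 | h0
    · refine (lap_pareto_split α hα l hl 1 le_rfl).trans ?_
      apply ENNReal.ofReal_le_ofReal
      rw [← h0, Real.zero_rpow hα.ne']
      simp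
    · have hc : 1 ≤ 1 / l := by
        rw [le_div_iff₀ h0]
        linarith
      refine (lap_pareto_split α hα l hl (1 / l) hc).trans ?_
      apply ENNReal.ofReal_le_ofReal
      have e1 : (1 / l) ^ (-α) = l ^ α := by
        rw [one_div, Real.inv_rpow h0.le, Real.rpow_neg h0.le, inv_inv]
      have e2 : l * (1 / l) = 1 := by field_simp
      rw [e1, e2]
      have hx0 : 0 ≤ l ^ α := by positivity
      have he : Real.exp (-1) ≤ 1 / 2 := by
        rw [Real.exp_neg, ← one_div]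
        apply one_div_le_one_div_of_le (by norm_num)
        have := Real.add_one_le_exp (1 : ℝ)
        linarith
      have he0 := Real.exp_pos (-1)
      rw [le_div_iff₀ (by positivity)]
      nlinarith [mul_nonneg hx0 hx0]
  · refine (lap_pareto_split α hα l hl 1 le_rfl).trans ?_
    apply ENNReal.ofReal_le_ofReal
    rw [Real.one_rpow, mul_one, mul_one]
    have h1 : l ^ α ≤ l := by
      conv_rhs => rw [← Real.rpow_one l]
      exact Real.rpow_le_rpow_of_exponent_le h hα1.le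
    have h2 : Real.exp (-l) ≤ 1 / (1 + l) := by
      rw [Real.exp_neg, ← one_div]
      apply one_div_le_one_div_of_le (by linarith)
      have := Real.add_one_le_exp l
      linarith
    have h3 : 1 / (1 + l) ≤ 1 / (1 + l ^ α / 2) := by
      apply one_div_le_one_div_of_le
      · positivity
      · have : 0 ≤ l ^ α := by positivity
        linarith
    linarith


/-- the integrand of `C` -/
noncomputable def ck (α r : ℝ) : ℝ := α * r ^ (-1 - α) * (1 - Real.exp (-r))

theorem ck_nonneg (α : ℝ) (hα : 0 < α) (r : ℝ) (hr : 0 < r) : 0 < ck α r := by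
  unfold ck
  have h1 : 0 < r ^ (-1 - α) := Real.rpow_pos_of_pos hr _
  have h2 : Real.exp (-r) < 1 := by
    rw [← Real.exp_zero]
    exact Real.exp_lt_exp.mpr (by linarith)
  have h3 : 0 < 1 - Real.exp (-r) := by linarith
  positivity

theorem ck_int (α : ℝ) (hα : 0 < α) (hα1 : α < 1) : IntegrableOn (ck α) (Ioi 0) := by
  have hm : Measurable (ck α) := by
    unfold ck
    fun_prop
  have h1 : IntegrableOn (ck α) (Ioc 0 1) := by
    have h2 : IntegrableOn (fun r : ℝ => α * r ^ (-α)) (Ioc 0 1) := by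
      have h3 := intervalIntegral.intervalIntegrable_rpow' (a := (0 : ℝ)) (b := 1)
        (show -1 < -α by linarith)
      rw [intervalIntegrable_iff_integrableOn_Ioc_of_le zero_le_one] at h3
      exact h3.const_mul α
    refine Integrable.mono' h2 hm.aestronglyMeasurable ?_
    rw [ae_restrict_iff' measurableSet_Ioc]
    refine Eventually.of_forall (fun r hr => ?_)
    have hr0 : 0 < r := hr.1
    rw [Real.norm_of_nonneg (ck_nonneg α hα r hr0).le]
    unfold ck
    have h4 : r ^ (-α) = r ^ (-1 - α) * r := by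
      rw [show -α = (-1 - α) + 1 by ring, Real.rpow_add hr0, Real.rpow_one]
    rw [h4]
    have h5 : 1 - Real.exp (-r) ≤ r := by
      have := Real.add_one_le_exp (-r)
      linarith
    have h6 : 0 < r ^ (-1 - α) := Real.rpow_pos_of_pos hr0 _
    calc α * r ^ (-1 - α) * (1 - Real.exp (-r)) ≤ α * r ^ (-1 - α) * r :=
          mul_le_mul_of_nonneg_left h5 (by positivity)
      _ = _ := by ring
  have h2 : IntegrableOn (ck α) (Ioi 1) := by
    have h3 : IntegrableOn (fun r : ℝ => α * r ^ (-1 - α)) (Ioi 1) :=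
      (integrableOn_Ioi_rpow_of_lt (by linarith) zero_lt_one).const_mul α
    refine Integrable.mono' h3 hm.aestronglyMeasurable ?_
    rw [ae_restrict_iff' measurableSet_Ioi]
    refine Eventually.of_forall (fun r hr => ?_)
    have hr0 : 0 < r := lt_trans zero_lt_one hr
    rw [Real.norm_of_nonneg (ck_nonneg α hα r hr0).le]
    unfold ck
    have h6 : 0 < r ^ (-1 - α) := Real.rpow_pos_of_pos hr0 _
    have h7 := Real.exp_pos (-r)
    calc α * r ^ (-1 - α) * (1 - Real.exp (-r)) ≤ α * r ^ (-1 - α) * 1 :=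
          mul_le_mul_of_nonneg_left (by linarith) (by positivity)
      _ = _ := by ring
  have h3 : Ioi (0 : ℝ) = Ioc 0 1 ∪ Ioi 1 := (Ioc_union_Ioi_eq_Ioi zero_le_one).symm
  rw [h3]
  exact h1.union h2

theorem C_pos (α : ℝ) (hα : 0 < α) (hα1 : α < 1) : 0 < C α := by
  have h := ck_int α hα hα1
  have h0 : 0 ≤ᵐ[volume.restrict (Ioi 0)] ck α := by
    rw [EventuallyLE, ae_restrict_iff' measurableSet_Ioi]
    exact Eventually.of_forall (fun r hr => (ck_nonneg α hα r hr).le)
  show 0 < ∫ r in Ioi (0 : ℝ), ck α r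
  rw [setIntegral_pos_iff_support_of_nonneg_ae h0 h]
  have h2 : Function.support (ck α) ∩ Ioi 0 = Ioi 0 := by
    ext r
    constructor
    · exact fun h => h.2
    · intro hr
      exact ⟨(ck_nonneg α hα r hr).ne', hr⟩
  rw [h2, Real.volume_Ioi]
  exact ENNReal.zero_lt_top

/-- the Laplace transform of the Pareto law as a real integral -/
noncomputable def pJ (α l : ℝ) : ℝ := ∫ s in Ioi (1 : ℝ), α * s ^ (-1 - α) * Real.exp (-(l * s))

theorem pJ_int (α l : ℝ) (hα : 0 < α) (hl : 0 ≤ l) :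
    IntegrableOn (fun s : ℝ => α * s ^ (-1 - α) * Real.exp (-(l * s))) (Ioi 1) := by
  have h3 : IntegrableOn (fun r : ℝ => α * r ^ (-1 - α)) (Ioi 1) :=
    (integrableOn_Ioi_rpow_of_lt (by linarith) zero_lt_one).const_mul α
  refine Integrable.mono' h3 (Measurable.aestronglyMeasurable (by fun_prop)) ?_
  rw [ae_restrict_iff' measurableSet_Ioi]
  refine Eventually.of_forall (fun r hr => ?_)
  have hr0 : 0 < r := lt_trans zero_lt_one hr
  have h6 : 0 < r ^ (-1 - α) := Real.rpow_pos_of_pos hr0 _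
  have h7 := Real.exp_pos (-(l * r))
  have h8 : Real.exp (-(l * r)) ≤ 1 := Real.exp_le_one_iff.mpr (by nlinarith)
  rw [Real.norm_of_nonneg (by positivity)]
  calc α * r ^ (-1 - α) * Real.exp (-(l * r)) ≤ α * r ^ (-1 - α) * 1 :=
        mul_le_mul_of_nonneg_left h8 (by positivity)
    _ = _ := by ring

theorem pJ_nonneg (α l : ℝ) (hα : 0 < α) : 0 ≤ pJ α l := by
  unfold pJ
  refine setIntegral_nonneg measurableSet_Ioi (fun r hr => ?_)
  have hr0 : 0 < r := lt_trans zero_lt_one hr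
  have h6 : 0 < r ^ (-1 - α) := Real.rpow_pos_of_pos hr0 _
  positivity

theorem lap_eq (α l : ℝ) (hα : 0 < α) (hl : 0 ≤ l) :
    lap (pareto α) l = ENNReal.ofReal (pJ α l) := by
  unfold lap pJ
  rw [ofReal_integral_eq_lintegral_ofReal (pJ_int α l hα hl)]
  · have h1 : ∀ s : ℝ, pareto α s * ENNReal.ofReal (Real.exp (-(l * s))) =
        (Ici (1 : ℝ)).indicator
          (fun s => ENNReal.ofReal (α * s ^ (-1 - α) * Real.exp (-(l * s)))) s := by
      intro s
      unfold pareto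
      by_cases hs : 1 ≤ s
      · rw [if_pos hs, Set.indicator_of_mem (mem_Ici.mpr hs)]
        have hr0 : 0 < s := lt_of_lt_of_le zero_lt_one hs
        have h6 : 0 < s ^ (-1 - α) := Real.rpow_pos_of_pos hr0 _
        rw [← ENNReal.ofReal_mul (by positivity)]
      · rw [if_neg hs, Set.indicator_of_notMem (by simpa using hs), zero_mul]
    simp_rw [h1]
    rw [lintegral_indicator measurableSet_Ici, Measure.restrict_restrict measurableSet_Ici]
    have h2 : Ici (1 : ℝ) ∩ Ioi 0 = Ici 1 := by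
      ext s
      constructor
      · exact fun h => h.1
      · intro hs
        have hs1 : (1 : ℝ) ≤ s := hs
        exact ⟨hs, mem_Ioi.mpr (by linarith)⟩
    rw [h2]
    exact setLIntegral_congr Ioi_ae_eq_Ici.symm
  · rw [EventuallyLE, ae_restrict_iff' measurableSet_Ioi]
    refine Eventually.of_forall (fun r hr => ?_)
    have hr0 : 0 < r := lt_trans zero_lt_one hr
    have h6 : 0 < r ^ (-1 - α) := Real.rpow_pos_of_pos hr0 _
    show 0 ≤ α * r ^ (-1 - α) * Real.exp (-(l * r))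
    positivity

theorem pareto_mass (α : ℝ) (hα : 0 < α) : ∫ s in Ioi (1 : ℝ), α * s ^ (-1 - α) = 1 := by
  rw [integral_const_mul, integral_Ioi_rpow_of_lt (by linarith) zero_lt_one, Real.one_rpow]
  have : -1 - α + 1 = -α := by ring
  rw [this]
  field_simp

theorem pJ_zero (α : ℝ) (hα : 0 < α) : pJ α 0 = 1 := by
  unfold pJ
  refine Eq.trans ?_ (pareto_mass α hα)
  refine setIntegral_congr_fun measurableSet_Ioi (fun s _ => ?_)
  simp

theorem pJ_eq (α l : ℝ) (hα : 0 < α) (hl : 0 < l) :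
    pJ α l = 1 + -(l ^ α * ∫ r in Ioi l, ck α r) := by
  have h1 : ∫ s in Ioi (1 : ℝ), ck α (l * s) = l⁻¹ • ∫ r in Ioi (l * 1), ck α r :=
    integral_comp_mul_left_Ioi (ck α) 1 hl
  rw [mul_one, smul_eq_mul] at h1
  have h2 : ∀ s ∈ Ioi (1 : ℝ), α * s ^ (-1 - α) * Real.exp (-(l * s)) =
      α * s ^ (-1 - α) - l ^ (1 + α) * ck α (l * s) := by
    intro s hs
    have hr0 : 0 < s := lt_trans zero_lt_one hs
    unfold ck
    rw [Real.mul_rpow hl.le hr0.le]
    have h3 : l ^ (1 + α) * l ^ (-1 - α) = 1 := by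
      rw [← Real.rpow_add hl]
      ring_nf
      exact Real.rpow_zero l
    have h4 : l ^ (1 + α) * (α * (l ^ (-1 - α) * s ^ (-1 - α)) * (1 - Real.exp (-(l * s)))) =
        (l ^ (1 + α) * l ^ (-1 - α)) * (α * s ^ (-1 - α) * (1 - Real.exp (-(l * s)))) := by ring
    rw [h4, h3]
    ring
  unfold pJ
  rw [setIntegral_congr_fun measurableSet_Ioi h2]
  have hi1 : IntegrableOn (fun r : ℝ => α * r ^ (-1 - α)) (Ioi 1) :=
    (integrableOn_Ioi_rpow_of_lt (by linarith) zero_lt_one).const_mul α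
  have hi2 : IntegrableOn (fun s : ℝ => l ^ (1 + α) * ck α (l * s)) (Ioi 1) := by
    have h4 : IntegrableOn (fun s : ℝ => α * s ^ (-1 - α) -
        α * s ^ (-1 - α) * Real.exp (-(l * s))) (Ioi 1) := hi1.sub (pJ_int α l hα hl.le)
    refine h4.congr_fun (fun s hs => ?_) measurableSet_Ioi
    have := h2 s hs
    show α * s ^ (-1 - α) - α * s ^ (-1 - α) * Real.exp (-(l * s)) = l ^ (1 + α) * ck α (l * s)
    linarith
  rw [integral_sub hi1 hi2, pareto_mass α hα, integral_const_mul, h1]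
  have h5 : l ^ (1 + α) = l * l ^ α := by
    rw [Real.rpow_add hl, Real.rpow_one]
  rw [h5]
  field_simp
  ring

theorem ck_tendsto (α : ℝ) (hα : 0 < α) (hα1 : α < 1) (l : ℕ → ℝ) (hl0 : ∀ m, 0 ≤ l m)
    (hl : Tendsto l atTop (𝓝 0)) :
    Tendsto (fun m => ∫ r in Ioi (l m), ck α r) atTop (𝓝 (C α)) := by
  have h1 : ∀ m, ∫ r in Ioi (l m), ck α r =
      ∫ r in Ioi (0 : ℝ), (Ioi (l m)).indicator (ck α) r := by
    intro m
    rw [setIntegral_indicator measurableSet_Ioi, Ioi_inter_Ioi, sup_eq_right.mpr (hl0 m)]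
  simp_rw [h1]
  have hint := ck_int α hα hα1
  have hCe : C α = ∫ r in Ioi (0 : ℝ), ck α r := rfl
  rw [hCe]
  refine tendsto_integral_of_dominated_convergence (fun r => ‖ck α r‖) ?_ hint.norm ?_ ?_
  · intro m
    exact hint.aestronglyMeasurable.indicator measurableSet_Ioi
  · intro m
    exact Eventually.of_forall (fun r => norm_indicator_le_norm_self _ _)
  · rw [ae_restrict_iff' measurableSet_Ioi]
    refine Eventually.of_forall (fun r hr => ?_)
    have hr0 : (0 : ℝ) < r := hr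
    refine tendsto_const_nhds.congr' ?_
    filter_upwards [hl.eventually (gt_mem_nhds hr0)] with m hm
    rw [Set.indicator_of_mem (mem_Ioi.mpr hm)]


/-- J5: sums of independent Pareto variables converge to the stable law -/
theorem lap_pareto_tendsto (α : ℝ) (hα : 0 < α) (hα1 : α < 1) (y : ℝ) (hy : 0 ≤ y) :
    Tendsto (fun m : ℕ => (lap (pareto α) (y ^ (1 / α) * (m : ℝ) ^ (-(1 / α)))) ^ m) atTop
      (𝓝 (ENNReal.ofReal (Real.exp (-(C α * y))))) := by
  have hl0 : ∀ m : ℕ, 0 ≤ y ^ (1 / α) * (m : ℝ) ^ (-(1 / α)) := fun m =>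
    mul_nonneg (Real.rpow_nonneg hy _) (Real.rpow_nonneg (Nat.cast_nonneg m) _)
  have h1 : ∀ m : ℕ, (lap (pareto α) (y ^ (1 / α) * (m : ℝ) ^ (-(1 / α)))) ^ m =
      ENNReal.ofReal ((pJ α (y ^ (1 / α) * (m : ℝ) ^ (-(1 / α)))) ^ m) := by
    intro m
    rw [lap_eq α _ hα (hl0 m), ENNReal.ofReal_pow (pJ_nonneg α _ hα)]
  simp_rw [h1]
  refine ENNReal.tendsto_ofReal ?_
  rcases eq_or_lt_of_le hy with h0 | h0
  · rw [← h0]
    have hα' : (1 / α) ≠ 0 := by positivity
    simp only [Real.zero_rpow hα', zero_mul, pJ_zero α hα, one_pow, mul_zero, neg_zero,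
      Real.exp_zero]
    exact tendsto_const_nhds
  · have hlim0 : Tendsto (fun m : ℕ => y ^ (1 / α) * (m : ℝ) ^ (-(1 / α))) atTop (𝓝 0) := by
      have h2 : Tendsto (fun m : ℕ => (m : ℝ) ^ (-(1 / α))) atTop (𝓝 0) :=
        (tendsto_rpow_neg_atTop (by positivity)).comp tendsto_natCast_atTop_atTop
      simpa using h2.const_mul (y ^ (1 / α))
    have h3 := ck_tendsto α hα hα1 _ hl0 hlim0
    have h4 : Tendsto (fun m : ℕ => (1 + -((y ^ (1 / α) * (m : ℝ) ^ (-(1 / α))) ^ α *
        ∫ r in Ioi (y ^ (1 / α) * (m : ℝ) ^ (-(1 / α))), ck α r)) ^ m) atTop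
        (𝓝 (Real.exp (-(C α * y)))) := by
      refine Real.tendsto_one_add_pow_exp_of_tendsto ?_
      have h5 : Tendsto (fun m : ℕ => -(y *
          ∫ r in Ioi (y ^ (1 / α) * (m : ℝ) ^ (-(1 / α))), ck α r)) atTop (𝓝 (-(C α * y))) := by
        have := (h3.const_mul y).neg
        rwa [mul_comm y (C α)] at this
      refine h5.congr' ?_
      filter_upwards [eventually_gt_atTop 0] with m hm
      have hm0 : (0 : ℝ) < m := by exact_mod_cast hm
      have h6 : (y ^ (1 / α) * (m : ℝ) ^ (-(1 / α))) ^ α = y * (m : ℝ)⁻¹ := by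
        rw [Real.mul_rpow (Real.rpow_nonneg hy _) (Real.rpow_nonneg hm0.le _),
          ← Real.rpow_mul hy, ← Real.rpow_mul hm0.le]
        have e1 : 1 / α * α = 1 := by field_simp
        have e2 : -(1 / α) * α = -1 := by field_simp
        rw [e1, e2, Real.rpow_one, Real.rpow_neg_one]
      rw [h6]
      field_simp
    refine h4.congr' ?_
    filter_upwards [eventually_gt_atTop 0] with m hm
    have hm0 : (0 : ℝ) < m := by exact_mod_cast hm
    rw [pJ_eq α _ hα (mul_pos (Real.rpow_pos_of_pos h0 _) (Real.rpow_pos_of_pos hm0 _))]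


theorem measurable_lap (h : ℝ → ℝ≥0∞) (hh : Measurable h) : Measurable (lap h) := by
  unfold lap
  refine Measurable.lintegral_prod_right' (f := fun p : ℝ × ℝ => h p.2 * ENNReal.ofReal (Real.exp (-(p.1 * p.2)))) ?_
  exact (hh.comp measurable_snd).mul (by fun_prop)

section iter
variable {E : Type*} [MeasurableSpace E] (μ : Measure E) [SFinite μ] {n : ℕ}
    (pl : ∀ (F G H : ℝ → ℝ≥0∞), Measurable F → Measurable G → Measurable H →
      (∀ x y, 0 < x → 0 < y → F x * G y ≤ H (Real.sqrt (x * y)) ^ 2) →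
      (∫⁻ x in Ioi (0 : ℝ), F x) * (∫⁻ x in Ioi (0 : ℝ), G x) ≤ (∫⁻ x in Ioi (0 : ℝ), H x) ^ 2)
    (N : Fin n → E → ℝ) (hN : ∀ j, Measurable (N j)) (hN0 : ∀ j x, 0 ≤ N j x)
    (h : ℝ → ℝ≥0∞) (hh : Measurable h)
    (hmul : ∀ s t, 0 < s → 0 < t → h s * h t ≤ h (Real.sqrt (s * t)) ^ 2)
include pl hN hN0 hh hmul

theorem TP_step_pow (m : ℕ) (Φ₁ Φ₂ Φ₃ : E → ℝ≥0∞) (m1 : Measurable Φ₁) (m2 : Measurable Φ₂)
    (m3 : Measurable Φ₃)
    (H : TP μ N Φ₁ Φ₂ Φ₃) (j : Fin n) (a b : ℝ) (ha : 0 < a) (hb : 0 < b) :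
    TP μ N (fun x => lap h (a * N j x) ^ m * Φ₁ x) (fun x => lap h (b * N j x) ^ m * Φ₂ x)
      (fun x => lap h (Real.sqrt (a * b) * N j x) ^ m * Φ₃ x) := by
  have hl : ∀ c : ℝ, Measurable (fun x => lap h (c * N j x)) := fun c =>
    (measurable_lap h hh).comp ((hN j).const_mul c)
  induction m with
  | zero => simpa using H
  | succ m ih =>
    have := TP_step μ pl N hN hN0 h hh hmul _ _ _ (((hl a).pow_const m).mul m1)
      (((hl b).pow_const m).mul m2) (((hl (Real.sqrt (a * b))).pow_const m).mul m3) ih j a b ha hb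
    simp only [pow_succ', mul_assoc]
    exact this

theorem TP_iter (m : ℕ) (H : TP μ N (fun _ => 1) (fun _ => 1) (fun _ => 1)) (a b : Fin n → ℝ)
    (ha : ∀ j, 0 < a j) (hb : ∀ j, 0 < b j) :
    TP μ N (fun x => ∏ j, lap h (a j * N j x) ^ m) (fun x => ∏ j, lap h (b j * N j x) ^ m)
      (fun x => ∏ j, lap h (Real.sqrt (a j * b j) * N j x) ^ m) := by
  have hl : ∀ (c : Fin n → ℝ) (S : Finset (Fin n)), Measurable (fun x => ∏ j ∈ S, lap h (c j * N j x) ^ m) := by
    intro c S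
    refine Finset.measurable_prod S (fun j _ => ?_)
    exact ((measurable_lap h hh).comp ((hN j).const_mul (c j))).pow_const m
  have key : ∀ S : Finset (Fin n), TP μ N (fun x => ∏ j ∈ S, lap h (a j * N j x) ^ m)
      (fun x => ∏ j ∈ S, lap h (b j * N j x) ^ m)
      (fun x => ∏ j ∈ S, lap h (Real.sqrt (a j * b j) * N j x) ^ m) := by
    intro S
    induction S using Finset.induction_on with
    | empty => simpa using H
    | insert j S hj ih =>
      have := TP_step_pow μ pl N hN hN0 h hh hmul m _ _ _ (hl a S) (hl b S)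
        (hl (fun j => Real.sqrt (a j * b j)) S) ih j (a j) (b j) (ha j) (hb j)
      simpa only [Finset.prod_insert hj] using this
  exact key Finset.univ

end iter

theorem tendsto_prod_ennreal {ι κ : Type*} (S : Finset ι) (l : Filter κ) (f : ι → κ → ℝ≥0∞)
    (c : ι → ℝ≥0∞) (hc : ∀ j, c j ≠ ∞) (hf : ∀ j, Tendsto (f j) l (𝓝 (c j))) :
    Tendsto (fun m => ∏ j ∈ S, f j m) l (𝓝 (∏ j ∈ S, c j)) := by
  classical
  induction S using Finset.induction_on with
  | empty => simpa using tendsto_const_nhds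
  | insert j S hj ih =>
    simp only [Finset.prod_insert hj]
    exact ENNReal.Tendsto.mul (hf j) (Or.inr (ENNReal.prod_ne_top (fun i _ => hc i))) ih
      (Or.inr (hc j))


end Pool.Agent.Helper584.BT
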