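import Mathlib
import Pool.Agent.Helper584.BT.Base

set_option autoImplicit false
open MeasureTheory Set Filter Topology
open scoped ENNReal

namespace Pool.Agent.Helper584.BT

theorem rot_scale {E : Type*} [NormedAddCommGroup E] [NormedSpace ℝ E] [FiniteDimensional ℝ E]
    [MeasurableSpace E] [BorelSpace E] (μ : Measure E) [μ.IsAddHaarMeasure] {f : E → ℝ≥0∞}
    (hf : Measurable f) {r : ℝ} (hr : r ≠ 0) :
    ∫⁻ x, f (r • x) ∂μ = ENNReal.ofReal |(r ^ Module.finrank ℝ E)⁻¹| * ∫⁻ x, f x ∂μ := by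
  rw [← lintegral_map (g := fun x : E => r • x) hf (measurable_const_smul r),
    Measure.map_addHaar_smul μ hr, lintegral_smul_measure, smul_eq_mul]

/-- J1: the rotation by 45 degrees of the two copies preserves the product measure -/
theorem rot {E : Type*} [NormedAddCommGroup E] [NormedSpace ℝ E] [FiniteDimensional ℝ E]
    [MeasurableSpace E] [BorelSpace E] (μ : Measure E) [μ.IsAddHaarMeasure] (Φ : E → E → ℝ≥0∞)
    (hΦ : Measurable (fun p : E × E => Φ p.1 p.2)) :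
    ∫⁻ x, ∫⁻ y, Φ x y ∂μ ∂μ =
      ∫⁻ u, ∫⁻ v, Φ ((Real.sqrt 2)⁻¹ • (u + v)) ((Real.sqrt 2)⁻¹ • (u - v)) ∂μ ∂μ := by
  haveI := FiniteDimensional.proper_real E
  set s : ℝ := Real.sqrt 2 with hs
  have hs0 : 0 < s := Real.sqrt_pos.2 (by norm_num)
  have hss : s * s = 2 := Real.mul_self_sqrt (by norm_num)
  have hcomp : ∀ (f g : E × E → E), Measurable f → Measurable g →
      Measurable (fun p : E × E => Φ (f p) (g p)) := fun f g hf hg => hΦ.comp (hf.prodMk hg)
  have m1 : Measurable (Function.uncurry fun u v : E => Φ (s⁻¹ • (u + v)) (s⁻¹ • (u - v))) := by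
    unfold Function.uncurry
    exact hcomp _ _ (by fun_prop) (by fun_prop)
  have m2 : Measurable (Function.uncurry fun v x : E => Φ x (x - s • v)) := by
    unfold Function.uncurry
    exact hcomp _ _ (by fun_prop) (by fun_prop)
  rw [lintegral_lintegral_swap m1.aemeasurable]
  have h1 : ∀ v : E, ∫⁻ u, Φ (s⁻¹ • (u + v)) (s⁻¹ • (u - v)) ∂μ =
      ENNReal.ofReal |(s⁻¹ ^ Module.finrank ℝ E)⁻¹| * ∫⁻ x, Φ x (x - s • v) ∂μ := by
    intro v
    rw [← lintegral_sub_right_eq_self (fun u => Φ (s⁻¹ • (u + v)) (s⁻¹ • (u - v))) v]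
    have m3 : Measurable fun x : E => Φ x (x - s • v) :=
      m2.comp (measurable_const.prodMk measurable_id)
    rw [← rot_scale μ m3 (inv_ne_zero hs0.ne')]
    refine lintegral_congr fun u => ?_
    congr 1
    · rw [sub_add_cancel]
    · rw [sub_sub, smul_sub]
      congr 1
      rw [← two_smul ℝ v, smul_smul, ← hss]
      congr 1
      field_simp
  have h2 : ∀ x : E, ∫⁻ v, Φ x (x - s • v) ∂μ =
      ENNReal.ofReal |(s ^ Module.finrank ℝ E)⁻¹| * ∫⁻ y, Φ x y ∂μ := by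
    intro x
    have m4 : Measurable fun w : E => Φ x (x - w) :=
      hΦ.comp (measurable_const.prodMk (measurable_const.sub measurable_id))
    rw [rot_scale μ m4 hs0.ne']
    congr 1
    exact lintegral_sub_left_eq_self (fun y => Φ x y) x
  simp_rw [h1]
  rw [lintegral_const_mul _ m2.lintegral_prod_right, lintegral_lintegral_swap m2.aemeasurable]
  simp_rw [h2]
  have m5 : Measurable fun x : E => ∫⁻ y, Φ x y ∂μ := Measurable.lintegral_prod_right hΦ
  rw [lintegral_const_mul _ m5, ← mul_assoc, ← ENNReal.ofReal_mul (abs_nonneg _), ← abs_mul]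
  have h3 : (s⁻¹ ^ Module.finrank ℝ E)⁻¹ * (s ^ Module.finrank ℝ E)⁻¹ = 1 := by
    rw [inv_pow, inv_inv]
    exact mul_inv_cancel₀ (pow_ne_zero _ hs0.ne')
  rw [h3, abs_one, ENNReal.ofReal_one, one_mul]

theorem pln_aux (pl1 : ∀ (F G H : ℝ → ℝ≥0∞), Measurable F → Measurable G → Measurable H →
      (∀ x y, F x * G y ≤ H ((x + y) / 2) ^ 2) →
      (∫⁻ x, F x) * (∫⁻ x, G x) ≤ (∫⁻ x, H x) ^ 2)
    (n : ℕ) : ∀ (F G H : (Fin n → ℝ) → ℝ≥0∞), Measurable F → Measurable G → Measurable H →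
    (∀ x y, F x * G y ≤ H ((2 : ℝ)⁻¹ • (x + y)) ^ 2) →
    (∫⁻ x, F x) * (∫⁻ x, G x) ≤ (∫⁻ x, H x) ^ 2 := by
  induction n with
  | zero =>
    intro F G H hF hG hH HH
    have h : ∀ F : (Fin 0 → ℝ) → ℝ≥0∞, ∫⁻ x, F x = F 0 := by
      intro F
      rw [lintegral_unique, volume_pi, Measure.pi_of_empty]
      simp
      exact congrArg F (Subsingleton.elim _ _)
    rw [h, h, h]
    have := HH 0 0
    simpa using this
  | succ n ih =>
    intro F G H hF hG hH HH
    obtain ⟨e, he, hmp⟩ : ∃ e : ℝ × (Fin n → ℝ) → (Fin (n + 1) → ℝ),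
        (∀ p, e p = Fin.cons p.1 p.2) ∧ MeasurePreserving e volume volume := by
      refine ⟨(MeasurableEquiv.piFinSuccAbove (fun _ : Fin (n + 1) => ℝ) 0).symm, ?_, ?_⟩
      · intro p
        change (0 : Fin (n + 1)).insertNth (α := fun _ => ℝ) p.1 p.2 = _
        rw [Fin.insertNth_zero']
      · exact (volume_preserving_piFinSuccAbove (fun _ : Fin (n + 1) => ℝ) 0).symm
    have key : ∀ F : (Fin (n + 1) → ℝ) → ℝ≥0∞, Measurable F →
        ∫⁻ x, F x = ∫⁻ t : ℝ, ∫⁻ y : Fin n → ℝ, F (e (t, y)) := by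
      intro F hF
      rw [← hmp.lintegral_comp hF, Measure.volume_eq_prod]
      exact lintegral_prod _ (hF.comp hmp.measurable).aemeasurable
    have hmeas : ∀ F : (Fin (n + 1) → ℝ) → ℝ≥0∞, Measurable F →
        Measurable (fun t : ℝ => ∫⁻ y : Fin n → ℝ, F (e (t, y))) := by
      intro F hF
      exact (hF.comp hmp.measurable).lintegral_prod_right'
    rw [key F hF, key G hG, key H hH]
    apply pl1 _ _ _ (hmeas F hF) (hmeas G hG) (hmeas H hH)
    intro s t
    apply ih (fun y => F (e (s, y))) (fun y => G (e (t, y))) (fun y => H (e ((s + t) / 2, y)))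
    · exact (hF.comp hmp.measurable).comp measurable_prodMk_left
    · exact (hG.comp hmp.measurable).comp measurable_prodMk_left
    · exact (hH.comp hmp.measurable).comp measurable_prodMk_left
    · intro y z
      have h1 := HH (e (s, y)) (e (t, z))
      have h2 : (2 : ℝ)⁻¹ • (e (s, y) + e (t, z)) = e ((s + t) / 2, (2 : ℝ)⁻¹ • (y + z)) := by
        rw [he, he, he]
        funext i
        refine Fin.cases ?_ (fun i => ?_) i
        · simp only [Pi.smul_apply, Pi.add_apply, Fin.cons_zero, smul_eq_mul]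
          ring
        · simp only [Pi.smul_apply, Pi.add_apply, Fin.cons_succ, smul_eq_mul]
      rw [h2] at h1
      exact h1

/-- J2: Prekopa-Leindler in dimension `n`, midpoint form -/
theorem pln (pl1 : ∀ (F G H : ℝ → ℝ≥0∞), Measurable F → Measurable G → Measurable H →
      (∀ x y, F x * G y ≤ H ((x + y) / 2) ^ 2) →
      (∫⁻ x, F x) * (∫⁻ x, G x) ≤ (∫⁻ x, H x) ^ 2)
    (n : ℕ) (F G H : EuclideanSpace ℝ (Fin n) → ℝ≥0∞) (hF : Measurable F)
    (hG : Measurable G) (hH : Measurable H)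
    (HH : ∀ x y, F x * G y ≤ H ((2 : ℝ)⁻¹ • (x + y)) ^ 2) :
    (∫⁻ x, F x) * (∫⁻ x, G x) ≤ (∫⁻ x, H x) ^ 2 := by
  have hmp : MeasurePreserving (WithLp.toLp 2 : (Fin n → ℝ) → EuclideanSpace ℝ (Fin n))
      volume volume := PiLp.volume_preserving_toLp (Fin n)
  have key : ∀ F : EuclideanSpace ℝ (Fin n) → ℝ≥0∞, Measurable F →
      ∫⁻ x, F x = ∫⁻ y : Fin n → ℝ, F (WithLp.toLp 2 y) := by
    intro F hF
    rw [← hmp.lintegral_comp hF]
  rw [key F hF, key G hG, key H hH]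
  apply pln_aux pl1 n _ _ _ (hF.comp hmp.measurable) (hG.comp hmp.measurable)
    (hH.comp hmp.measurable)
  intro x y
  exact HH _ _

theorem anderson_pt {n M : ℕ} (L : EuclideanSpace ℝ (Fin n) →ₗ[ℝ] (Fin M → ℝ)) (κ : Fin M → ℝ)
    (hκ : ∀ j, 0 ≤ κ j) (a : Fin M → ℝ) (x y : EuclideanSpace ℝ (Fin n)) :
    (-∑ j, κ j * (L x j + a j) ^ 2) + (-∑ j, κ j * (L y j - a j) ^ 2) ≤
      2 * (-∑ j, κ j * (L ((2 : ℝ)⁻¹ • (x + y)) j) ^ 2) := by
  rw [mul_neg, ← neg_add, neg_le_neg_iff, ← Finset.sum_add_distrib, Finset.mul_sum]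
  apply Finset.sum_le_sum
  intro j _
  rw [map_smul, map_add, Pi.smul_apply, Pi.add_apply, smul_eq_mul]
  have h1 : 0 ≤ κ j * ((L x j + a j) - (L y j - a j)) ^ 2 := mul_nonneg (hκ j) (sq_nonneg _)
  nlinarith

theorem anderson_meas {n M : ℕ} (L : EuclideanSpace ℝ (Fin n) →ₗ[ℝ] (Fin M → ℝ)) (κ : Fin M → ℝ)
    (a : Fin M → ℝ) :
    Measurable fun v => ENNReal.ofReal (Real.exp (-∑ j, κ j * (L v j + a j) ^ 2)) := by
  have hL : Continuous L := L.continuous_of_finiteDimensional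
  have h1 : Continuous fun v => Real.exp (-∑ j, κ j * (L v j + a j) ^ 2) := by
    apply Real.continuous_exp.comp
    apply Continuous.neg
    apply continuous_finsetSum
    intro j _
    exact continuous_const.mul ((((continuous_apply j).comp hL).add continuous_const).pow 2)
  exact ENNReal.measurable_ofReal.comp h1.measurable

/-- J3: Anderson's inequality for Gaussian weights -/
theorem anderson {n M : ℕ} (pln : ∀ (F G H : EuclideanSpace ℝ (Fin n) → ℝ≥0∞), Measurable F → Measurable G →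
      Measurable H → (∀ x y, F x * G y ≤ H ((2 : ℝ)⁻¹ • (x + y)) ^ 2) →
      (∫⁻ x, F x) * (∫⁻ x, G x) ≤ (∫⁻ x, H x) ^ 2)
    (W : EuclideanSpace ℝ (Fin n) → ℝ≥0∞) (hW : Measurable W)
    (hsym : ∀ v, W (-v) = W v) (hlc : ∀ v v', W v * W v' ≤ W ((2 : ℝ)⁻¹ • (v + v')) ^ 2)
    (L : EuclideanSpace ℝ (Fin n) →ₗ[ℝ] (Fin M → ℝ)) (κ : Fin M → ℝ) (hκ : ∀ j, 0 ≤ κ j)
    (a : Fin M → ℝ) :
    ∫⁻ v, W v * ENNReal.ofReal (Real.exp (-∑ j, κ j * (L v j + a j) ^ 2)) ≤
      ∫⁻ v, W v * ENNReal.ofReal (Real.exp (-∑ j, κ j * (L v j) ^ 2)) := by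
  set F : EuclideanSpace ℝ (Fin n) → ℝ≥0∞ :=
    fun v => W v * ENNReal.ofReal (Real.exp (-∑ j, κ j * (L v j + a j) ^ 2)) with hF
  set G : EuclideanSpace ℝ (Fin n) → ℝ≥0∞ :=
    fun v => W v * ENNReal.ofReal (Real.exp (-∑ j, κ j * (L v j - a j) ^ 2)) with hG
  set H : EuclideanSpace ℝ (Fin n) → ℝ≥0∞ :=
    fun v => W v * ENNReal.ofReal (Real.exp (-∑ j, κ j * (L v j) ^ 2)) with hH
  have mF : Measurable F := hW.mul (anderson_meas L κ a)
  have mG : Measurable G := by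
    have := anderson_meas L κ (fun j => - a j)
    simp only [← sub_eq_add_neg] at this
    exact hW.mul this
  have mH : Measurable H := by
    have := anderson_meas L κ (fun _ => 0)
    simp only [add_zero] at this
    exact hW.mul this
  have key := pln F G H mF mG mH (by
    intro x y
    set m := (2 : ℝ)⁻¹ • (x + y) with hm
    have h1 := anderson_pt L κ hκ a x y
    rw [← hm] at h1
    have h2 : ENNReal.ofReal (Real.exp (-∑ j, κ j * (L x j + a j) ^ 2)) *
        ENNReal.ofReal (Real.exp (-∑ j, κ j * (L y j - a j) ^ 2)) ≤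
        ENNReal.ofReal (Real.exp (-∑ j, κ j * (L m j) ^ 2)) ^ 2 := by
      rw [← ENNReal.ofReal_mul (Real.exp_pos _).le, ← Real.exp_add,
        ← ENNReal.ofReal_pow (Real.exp_pos _).le, ← Real.exp_nat_mul]
      apply ENNReal.ofReal_le_ofReal
      apply Real.exp_le_exp.2
      push_cast
      exact h1
    calc F x * G y = (W x * W y) *
          (ENNReal.ofReal (Real.exp (-∑ j, κ j * (L x j + a j) ^ 2)) *
            ENNReal.ofReal (Real.exp (-∑ j, κ j * (L y j - a j) ^ 2))) := by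
          simp only [hF, hG]; ring
      _ ≤ W m ^ 2 * ENNReal.ofReal (Real.exp (-∑ j, κ j * (L m j) ^ 2)) ^ 2 :=
          mul_le_mul' (hlc x y) h2
      _ = H m ^ 2 := by simp only [hH]; rw [mul_pow])
  have hGF : ∫⁻ v, G v = ∫⁻ v, F v := by
    rw [← lintegral_neg_eq_self]
    apply lintegral_congr
    intro v
    simp only [hG, hF]
    rw [hsym, map_neg]
    congr 3
    apply congrArg
    apply Finset.sum_congr rfl
    intro j _
    rw [Pi.neg_apply]
    ring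
  rw [hGF, ← pow_two] at key
  exact (ENNReal.pow_le_pow_left_iff two_ne_zero).1 key

/-- double Gaussian integral with weight `W` -/
noncomputable def II {n M : ℕ} (W : EuclideanSpace ℝ (Fin n) → EuclideanSpace ℝ (Fin n) → ℝ≥0∞)
    (L : EuclideanSpace ℝ (Fin n) →ₗ[ℝ] (Fin M → ℝ)) (α β : Fin M → ℝ) : ℝ≥0∞ :=
  ∫⁻ x, ∫⁻ y, W x y *
    ENNReal.ofReal (Real.exp (-∑ j, (α j * (L x j) ^ 2 + β j * (L y j) ^ 2)))

/-- the rotated weight -/
noncomputable def rotW {n : ℕ} (W : EuclideanSpace ℝ (Fin n) → EuclideanSpace ℝ (Fin n) → ℝ≥0∞) :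
    EuclideanSpace ℝ (Fin n) → EuclideanSpace ℝ (Fin n) → ℝ≥0∞ :=
  fun u v => W ((Real.sqrt 2)⁻¹ • (u + v)) ((Real.sqrt 2)⁻¹ • (u - v))

theorem step_alg (α β p q : ℝ) (hα : 0 < α) (hβ : 0 < β) :
    α * ((Real.sqrt 2)⁻¹ * (p + q)) ^ 2 + β * ((Real.sqrt 2)⁻¹ * (p - q)) ^ 2 =
      (α + β) / 2 * (q + (α - β) / (α + β) * p) ^ 2 + 2 * α * β / (α + β) * p ^ 2 := by
  have hc : ((Real.sqrt 2)⁻¹) ^ 2 = 1 / 2 := by
    rw [inv_pow, Real.sq_sqrt (by norm_num)]
    norm_num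
  have h : α + β ≠ 0 := by positivity
  rw [mul_pow, mul_pow, hc]
  field_simp
  ring

theorem step_exp {M : ℕ} (w : ℝ≥0∞) (f g k : Fin M → ℝ) (h : ∀ j, f j = g j + k j) :
    w * ENNReal.ofReal (Real.exp (-∑ j, f j)) =
      w * ENNReal.ofReal (Real.exp (-∑ j, g j)) * ENNReal.ofReal (Real.exp (-∑ j, k j)) := by
  rw [mul_assoc, ← ENNReal.ofReal_mul (Real.exp_nonneg _), ← Real.exp_add, ← neg_add,
    ← Finset.sum_add_distrib]
  congr 4
  exact Finset.sum_congr rfl fun j _ => h j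

/-- J4: one step of the arithmetic-harmonic mean iteration -/
theorem step {n M : ℕ} (rot : ∀ (Φ : EuclideanSpace ℝ (Fin n) → EuclideanSpace ℝ (Fin n) → ℝ≥0∞),
      Measurable (fun p : EuclideanSpace ℝ (Fin n) × EuclideanSpace ℝ (Fin n) => Φ p.1 p.2) →
      ∫⁻ x, ∫⁻ y, Φ x y = ∫⁻ u, ∫⁻ v, Φ ((Real.sqrt 2)⁻¹ • (u + v)) ((Real.sqrt 2)⁻¹ • (u - v)))
    (anderson : ∀ (W : EuclideanSpace ℝ (Fin n) → ℝ≥0∞), Measurable W → (∀ v, W (-v) = W v) →
      (∀ v v', W v * W v' ≤ W ((2 : ℝ)⁻¹ • (v + v')) ^ 2) →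
      ∀ (L : EuclideanSpace ℝ (Fin n) →ₗ[ℝ] (Fin M → ℝ)) (κ : Fin M → ℝ), (∀ j, 0 ≤ κ j) →
      ∀ (a : Fin M → ℝ),
      ∫⁻ v, W v * ENNReal.ofReal (Real.exp (-∑ j, κ j * (L v j + a j) ^ 2)) ≤
        ∫⁻ v, W v * ENNReal.ofReal (Real.exp (-∑ j, κ j * (L v j) ^ 2)))
    (W : EuclideanSpace ℝ (Fin n) → EuclideanSpace ℝ (Fin n) → ℝ≥0∞)
    (hm : Measurable (fun p : EuclideanSpace ℝ (Fin n) × EuclideanSpace ℝ (Fin n) => W p.1 p.2))
    (hsw : ∀ x y, W x y = W y x)
    (hlc : ∀ x x' y y', W x y * W x' y' ≤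
      W ((2 : ℝ)⁻¹ • (x + x')) ((2 : ℝ)⁻¹ • (y + y')) ^ 2)
    (L : EuclideanSpace ℝ (Fin n) →ₗ[ℝ] (Fin M → ℝ)) (α β : Fin M → ℝ) (hα : ∀ j, 0 < α j)
    (hβ : ∀ j, 0 < β j) :
    II W L α β ≤ II (rotW W) L (fun j => 2 * α j * β j / (α j + β j))
      (fun j => (α j + β j) / 2) := by
  have hL : Continuous L := L.continuous_of_finiteDimensional
  have hLj : ∀ j, Continuous (fun x => L x j) := fun j => (continuous_apply j).comp hL
  unfold II
  have hmeas : Measurable (fun p : EuclideanSpace ℝ (Fin n) × EuclideanSpace ℝ (Fin n) =>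
      (fun x y => W x y *
        ENNReal.ofReal (Real.exp (-∑ j, (α j * (L x j) ^ 2 + β j * (L y j) ^ 2)))) p.1 p.2) := by
    refine hm.mul (ENNReal.measurable_ofReal.comp (Continuous.measurable ?_))
    refine Real.continuous_exp.comp (Continuous.neg (continuous_finsetSum _ fun j _ => ?_))
    exact (continuous_const.mul (((hLj j).comp continuous_fst).pow 2)).add
      (continuous_const.mul (((hLj j).comp continuous_snd).pow 2))
  rw [rot (fun x y => W x y *
        ENNReal.ofReal (Real.exp (-∑ j, (α j * (L x j) ^ 2 + β j * (L y j) ^ 2)))) hmeas]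
  apply lintegral_mono
  intro u
  have e1 : ∀ v, W ((Real.sqrt 2)⁻¹ • (u + v)) ((Real.sqrt 2)⁻¹ • (u - v)) *
      ENNReal.ofReal (Real.exp (-∑ j, (α j * (L ((Real.sqrt 2)⁻¹ • (u + v)) j) ^ 2 +
        β j * (L ((Real.sqrt 2)⁻¹ • (u - v)) j) ^ 2))) =
      rotW W u v * ENNReal.ofReal (Real.exp (-∑ j, (α j + β j) / 2 *
        (L v j + (α j - β j) / (α j + β j) * L u j) ^ 2)) *
        ENNReal.ofReal (Real.exp (-∑ j, 2 * α j * β j / (α j + β j) * (L u j) ^ 2)) := by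
    intro v
    unfold rotW
    apply step_exp
    intro j
    rw [map_smul, map_smul, map_add, map_sub]
    simp only [Pi.smul_apply, Pi.add_apply, Pi.sub_apply, smul_eq_mul]
    exact step_alg (α j) (β j) (L u j) (L v j) (hα j) (hβ j)
  have e2 : ∀ v, rotW W u v * ENNReal.ofReal (Real.exp
      (-∑ j, (2 * α j * β j / (α j + β j) * (L u j) ^ 2 + (α j + β j) / 2 * (L v j) ^ 2))) =
      rotW W u v * ENNReal.ofReal (Real.exp (-∑ j, (α j + β j) / 2 * (L v j) ^ 2)) *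
        ENNReal.ofReal (Real.exp (-∑ j, 2 * α j * β j / (α j + β j) * (L u j) ^ 2)) := by
    intro v
    apply step_exp
    intro j
    ring
  show ∫⁻ v, W ((Real.sqrt 2)⁻¹ • (u + v)) ((Real.sqrt 2)⁻¹ • (u - v)) *
      ENNReal.ofReal (Real.exp (-∑ j, (α j * (L ((Real.sqrt 2)⁻¹ • (u + v)) j) ^ 2 +
        β j * (L ((Real.sqrt 2)⁻¹ • (u - v)) j) ^ 2))) ≤
    ∫⁻ v, rotW W u v * ENNReal.ofReal (Real.exp
      (-∑ j, (2 * α j * β j / (α j + β j) * (L u j) ^ 2 + (α j + β j) / 2 * (L v j) ^ 2)))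
  rw [lintegral_congr e1, lintegral_congr e2, lintegral_mul_const' _ _ ENNReal.ofReal_ne_top,
    lintegral_mul_const' _ _ ENNReal.ofReal_ne_top]
  refine mul_le_mul' ?_ le_rfl
  refine anderson (fun v => rotW W u v) ?_ ?_ ?_ L (fun j => (α j + β j) / 2) ?_
    (fun j => (α j - β j) / (α j + β j) * L u j)
  · have h1 : Measurable (fun v : EuclideanSpace ℝ (Fin n) =>
        (((Real.sqrt 2)⁻¹ • (u + v), (Real.sqrt 2)⁻¹ • (u - v)) :
          EuclideanSpace ℝ (Fin n) × EuclideanSpace ℝ (Fin n))) := by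
      apply Continuous.measurable
      fun_prop
    exact hm.comp h1
  · intro v
    unfold rotW
    rw [sub_neg_eq_add, ← sub_eq_add_neg, hsw]
  · intro v v'
    unfold rotW
    refine (hlc _ _ _ _).trans (le_of_eq ?_)
    congr 2
    · module
    · module
  · intro j
    have := hα j
    have := hβ j
    positivity

/-- the arithmetic-harmonic mean iteration -/
noncomputable def ah : ℕ → ℝ × ℝ → ℝ × ℝ
  | 0, z => z
  | k + 1, z => (2 * (ah k z).1 * (ah k z).2 / ((ah k z).1 + (ah k z).2),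
      ((ah k z).1 + (ah k z).2) / 2)

/-- J5 -/
theorem ah_pos (z : ℝ × ℝ) (h1 : 0 < z.1) (h2 : 0 < z.2) (k : ℕ) :
    0 < (ah k z).1 ∧ 0 < (ah k z).2 := by
  induction k with
  | zero => exact ⟨h1, h2⟩
  | succ k ih =>
    obtain ⟨i1, i2⟩ := ih
    constructor
    · show 0 < 2 * (ah k z).1 * (ah k z).2 / ((ah k z).1 + (ah k z).2)
      positivity
    · show 0 < ((ah k z).1 + (ah k z).2) / 2
      positivity

theorem h170_ah_prod (z : ℝ × ℝ) (h1 : 0 < z.1) (h2 : 0 < z.2) (k : ℕ) :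
    (ah k z).1 * (ah k z).2 = z.1 * z.2 := by
  induction k with
  | zero => rfl
  | succ k ih =>
    obtain ⟨i1, i2⟩ := ah_pos z h1 h2 k
    show 2 * (ah k z).1 * (ah k z).2 / ((ah k z).1 + (ah k z).2) * (((ah k z).1 + (ah k z).2) / 2) = z.1 * z.2
    rw [← ih]
    field_simp

theorem h170_ah_between (z : ℝ × ℝ) (h1 : 0 < z.1) (h2 : 0 < z.2) (k : ℕ) :
    (ah (k + 1) z).1 ≤ Real.sqrt (z.1 * z.2) ∧ Real.sqrt (z.1 * z.2) ≤ (ah (k + 1) z).2 := by
  obtain ⟨i1, i2⟩ := ah_pos z h1 h2 k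
  obtain ⟨j1, j2⟩ := ah_pos z h1 h2 (k + 1)
  have hp := h170_ah_prod z h1 h2 k
  have hp1 := h170_ah_prod z h1 h2 (k + 1)
  have hb : Real.sqrt (z.1 * z.2) ≤ (ah (k + 1) z).2 := by
    refine Real.sqrt_le_iff.2 ⟨j2.le, ?_⟩
    show z.1 * z.2 ≤ (((ah k z).1 + (ah k z).2) / 2) ^ 2
    rw [← hp]
    nlinarith [sq_nonneg ((ah k z).1 - (ah k z).2)]
  refine ⟨?_, hb⟩
  refine Real.le_sqrt_of_sq_le ?_
  have hle : (ah (k + 1) z).1 ≤ (ah (k + 1) z).2 := by
    by_contra hcon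
    push Not at hcon
    have h3 : Real.sqrt (z.1 * z.2) ^ 2 = z.1 * z.2 := Real.sq_sqrt (by positivity)
    have h4 : 0 ≤ Real.sqrt (z.1 * z.2) := Real.sqrt_nonneg _
    have h5 : Real.sqrt (z.1 * z.2) ^ 2 ≤ (ah (k + 1) z).2 ^ 2 := pow_le_pow_left₀ h4 hb 2
    rw [h3, ← hp1] at h5
    nlinarith
  rw [← hp1]
  nlinarith

theorem h170_ah_diff (z : ℝ × ℝ) (h1 : 0 < z.1) (h2 : 0 < z.2) (k : ℕ) :
    |(ah k z).2 - (ah k z).1| ≤ |z.2 - z.1| * (1 / 2) ^ k := by
  induction k with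
  | zero => simp [ah]
  | succ k ih =>
    obtain ⟨i1, i2⟩ := ah_pos z h1 h2 k
    have e : (ah (k + 1) z).2 - (ah (k + 1) z).1 =
        ((ah k z).2 - (ah k z).1) ^ 2 / (2 * ((ah k z).1 + (ah k z).2)) := by
      show ((ah k z).1 + (ah k z).2) / 2 - 2 * (ah k z).1 * (ah k z).2 / ((ah k z).1 + (ah k z).2) = _
      field_simp
      ring
    rw [e, abs_of_nonneg (by positivity), ← sq_abs]
    have h3 : |(ah k z).2 - (ah k z).1| ≤ (ah k z).1 + (ah k z).2 := by
      rw [abs_le]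
      constructor <;> linarith
    have h4 : |(ah k z).2 - (ah k z).1| ^ 2 / (2 * ((ah k z).1 + (ah k z).2)) ≤ |(ah k z).2 - (ah k z).1| / 2 := by
      rw [div_le_div_iff₀ (by positivity) (by norm_num)]
      nlinarith [abs_nonneg ((ah k z).2 - (ah k z).1)]
    refine h4.trans ?_
    rw [pow_succ]
    linarith

theorem ah_tendsto (z : ℝ × ℝ) (h1 : 0 < z.1) (h2 : 0 < z.2) :
    Tendsto (fun k => (ah k z).1) atTop (𝓝 (Real.sqrt (z.1 * z.2))) ∧
      Tendsto (fun k => (ah k z).2) atTop (𝓝 (Real.sqrt (z.1 * z.2))) := by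
  have h0 : Tendsto (fun k : ℕ => |z.2 - z.1| * (1 / 2 : ℝ) ^ (k + 1)) atTop (𝓝 0) := by
    have h3 : Tendsto (fun k : ℕ => (1 / 2 : ℝ) ^ k) atTop (𝓝 0) :=
      tendsto_pow_atTop_nhds_zero_of_lt_one (by norm_num) (by norm_num)
    have h4 := (h3.comp (tendsto_add_atTop_nat 1)).const_mul |z.2 - z.1|
    rw [mul_zero] at h4
    exact h4
  have hd : ∀ k, |(ah (k + 1) z).1 - Real.sqrt (z.1 * z.2)| ≤ |z.2 - z.1| * (1 / 2 : ℝ) ^ (k + 1) ∧
      |(ah (k + 1) z).2 - Real.sqrt (z.1 * z.2)| ≤ |z.2 - z.1| * (1 / 2 : ℝ) ^ (k + 1) := by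
    intro k
    have h3 := h170_ah_between z h1 h2 k
    have h4 := h170_ah_diff z h1 h2 (k + 1)
    rw [abs_of_nonneg (by linarith [h3.1, h3.2])] at h4
    constructor
    · rw [abs_of_nonpos (by linarith [h3.1])]
      linarith [h3.1, h3.2]
    · rw [abs_of_nonneg (by linarith [h3.2])]
      linarith [h3.1, h3.2]
  constructor
  · rw [← tendsto_add_atTop_iff_nat 1]
    rw [tendsto_iff_dist_tendsto_zero]
    exact squeeze_zero (fun k => dist_nonneg) (fun k => by rw [Real.dist_eq]; exact (hd k).1) h0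
  · rw [← tendsto_add_atTop_iff_nat 1]
    rw [tendsto_iff_dist_tendsto_zero]
    exact squeeze_zero (fun k => dist_nonneg) (fun k => by rw [Real.dist_eq]; exact (hd k).2) h0

abbrev EE (n : ℕ) := EuclideanSpace ℝ (Fin n)

theorem sqrt2_inv_mul : (Real.sqrt 2)⁻¹ * (Real.sqrt 2)⁻¹ = (2 : ℝ)⁻¹ := by
  rw [← mul_inv, Real.mul_self_sqrt (by norm_num)]

theorem rotW_rotW {n : ℕ} (W : EE n → EE n → ℝ≥0∞) : rotW (rotW W) = W := by
  funext u v
  unfold rotW
  have h1 : (Real.sqrt 2)⁻¹ • ((Real.sqrt 2)⁻¹ • (u + v) + (Real.sqrt 2)⁻¹ • (u - v)) = u := by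
    rw [← smul_add, smul_smul, sqrt2_inv_mul]
    have : u + v + (u - v) = (2 : ℝ) • u := by rw [two_smul]; abel
    rw [this, smul_smul]; norm_num
  have h2 : (Real.sqrt 2)⁻¹ • ((Real.sqrt 2)⁻¹ • (u + v) - (Real.sqrt 2)⁻¹ • (u - v)) = v := by
    rw [← smul_sub, smul_smul, sqrt2_inv_mul]
    have : u + v - (u - v) = (2 : ℝ) • v := by rw [two_smul]; abel
    rw [this, smul_smul]; norm_num
  rw [h1, h2]

/-- the indicator weight -/
noncomputable def kap {n : ℕ} (K : Set (EE n)) : EE n → ℝ≥0∞ := K.indicator (fun _ => 1)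

noncomputable def WK {n : ℕ} (K : Set (EE n)) : EE n → EE n → ℝ≥0∞ := fun x y => kap K x * kap K y

theorem kap_meas {n : ℕ} {K : Set (EE n)} (hK : MeasurableSet K) : Measurable (kap K) :=
  measurable_const.indicator hK

theorem WK_meas {n : ℕ} {K : Set (EE n)} (hK : MeasurableSet K) :
    Measurable (fun p : EE n × EE n => WK K p.1 p.2) :=
  ((kap_meas hK).comp measurable_fst).mul ((kap_meas hK).comp measurable_snd)

theorem rotW_meas {n : ℕ} (W : EE n → EE n → ℝ≥0∞)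
    (hW : Measurable (fun p : EE n × EE n => W p.1 p.2)) :
    Measurable (fun p : EE n × EE n => rotW W p.1 p.2) := by
  unfold rotW
  have : Measurable (fun p : EE n × EE n =>
      (((Real.sqrt 2)⁻¹ • (p.1 + p.2), (Real.sqrt 2)⁻¹ • (p.1 - p.2)) : EE n × EE n)) := by
    fun_prop
  exact hW.comp this

theorem WK_symm {n : ℕ} (K : Set (EE n)) (x y : EE n) : WK K x y = WK K y x := mul_comm _ _

theorem kap_neg {n : ℕ} {K : Set (EE n)} (hs : ∀ x ∈ K, -x ∈ K) (x : EE n) :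
    kap K (-x) = kap K x := by
  have : -x ∈ K ↔ x ∈ K := ⟨fun h => by simpa using hs _ h, hs x⟩
  unfold kap
  by_cases h : x ∈ K
  · rw [Set.indicator_of_mem h, Set.indicator_of_mem (this.2 h)]
  · rw [Set.indicator_of_notMem h, Set.indicator_of_notMem (fun h' => h (this.1 h'))]

theorem rotW_symm {n : ℕ} {K : Set (EE n)} (hs : ∀ x ∈ K, -x ∈ K) (x y : EE n) :
    rotW (WK K) x y = rotW (WK K) y x := by
  unfold rotW WK
  have h : (Real.sqrt 2)⁻¹ • (x - y) = -((Real.sqrt 2)⁻¹ • (y - x)) := by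
    rw [← smul_neg, neg_sub]
  rw [h, kap_neg hs, add_comm x y]

theorem WK_mid {n : ℕ} {K : Set (EE n)} (hc : Convex ℝ K) (x x' y y' : EE n) :
    WK K x y * WK K x' y' ≤ WK K ((2 : ℝ)⁻¹ • (x + x')) ((2 : ℝ)⁻¹ • (y + y')) ^ 2 := by
  have mid : ∀ a b : EE n, a ∈ K → b ∈ K → (2 : ℝ)⁻¹ • (a + b) ∈ K := by
    intro a b ha hb
    rw [smul_add]
    exact hc ha hb (by norm_num) (by norm_num) (by norm_num)
  unfold WK kap
  by_cases h1 : x ∈ K
  · by_cases h2 : x' ∈ K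
    · by_cases h3 : y ∈ K
      · by_cases h4 : y' ∈ K
        · rw [Set.indicator_of_mem h1, Set.indicator_of_mem h2, Set.indicator_of_mem h3,
            Set.indicator_of_mem h4, Set.indicator_of_mem (mid _ _ h1 h2),
            Set.indicator_of_mem (mid _ _ h3 h4)]
          simp
        · rw [Set.indicator_of_notMem h4]; simp
      · rw [Set.indicator_of_notMem h3]; simp
    · rw [Set.indicator_of_notMem h2]; simp
  · rw [Set.indicator_of_notMem h1]; simp

theorem rotW_mid {n : ℕ} (W : EE n → EE n → ℝ≥0∞)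
    (h : ∀ x x' y y', W x y * W x' y' ≤ W ((2 : ℝ)⁻¹ • (x + x')) ((2 : ℝ)⁻¹ • (y + y')) ^ 2)
    (x x' y y' : EE n) :
    rotW W x y * rotW W x' y' ≤
      rotW W ((2 : ℝ)⁻¹ • (x + x')) ((2 : ℝ)⁻¹ • (y + y')) ^ 2 := by
  unfold rotW
  refine (h _ _ _ _).trans (le_of_eq ?_)
  congr 2
  · module
  · module

noncomputable def fg {n M : ℕ} (L : EE n →ₗ[ℝ] (Fin M → ℝ)) (a : Fin M → ℝ) : EE n → ℝ≥0∞ :=
  fun x => ENNReal.ofReal (Real.exp (-∑ j, a j * (L x j) ^ 2))

theorem L_meas {n M : ℕ} (L : EE n →ₗ[ℝ] (Fin M → ℝ)) (j : Fin M) : Measurable (fun x => L x j) := by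
  have h : Continuous L := L.continuous_of_finiteDimensional
  exact ((continuous_apply j).comp h).measurable

theorem fg_meas {n M : ℕ} (L : EE n →ₗ[ℝ] (Fin M → ℝ)) (a : Fin M → ℝ) : Measurable (fg L a) := by
  unfold fg
  apply ENNReal.measurable_ofReal.comp
  apply Real.measurable_exp.comp
  apply Measurable.neg
  apply Finset.measurable_fun_sum
  intro j _
  exact ((L_meas L j).pow_const 2).const_mul _

noncomputable def GK {n M : ℕ} (K : Set (EE n)) (L : EE n →ₗ[ℝ] (Fin M → ℝ)) (a : Fin M → ℝ) :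
    ℝ≥0∞ := ∫⁻ x, kap K x * fg L a x

theorem II_eq {n M : ℕ} {K : Set (EE n)} (hK : MeasurableSet K) (L : EE n →ₗ[ℝ] (Fin M → ℝ))
    (a b : Fin M → ℝ) : II (WK K) L a b = GK K L a * GK K L b := by
  unfold II GK
  have h1 : ∀ x y : EE n, WK K x y *
      ENNReal.ofReal (Real.exp (-∑ j, (a j * (L x j) ^ 2 + b j * (L y j) ^ 2))) =
      (kap K x * fg L a x) * (kap K y * fg L b y) := by
    intro x y
    have : ENNReal.ofReal (Real.exp (-∑ j, (a j * (L x j) ^ 2 + b j * (L y j) ^ 2))) =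
        fg L a x * fg L b y := by
      unfold fg
      rw [← ENNReal.ofReal_mul (Real.exp_pos _).le, ← Real.exp_add, Finset.sum_add_distrib]
      congr 2
      ring
    rw [this]
    unfold WK
    ring
  simp_rw [h1]
  have h2 : ∀ x : EE n, ∫⁻ y, (kap K x * fg L a x) * (kap K y * fg L b y) =
      (kap K x * fg L a x) * ∫⁻ y, (kap K y * fg L b y) := by
    intro x
    exact lintegral_const_mul _ ((kap_meas hK).mul (fg_meas L b))
  simp_rw [h2]
  exact lintegral_mul_const _ ((kap_meas hK).mul (fg_meas L a))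

theorem G_eq {n M : ℕ} {K : Set (EE n)} (hK : MeasurableSet K) (L : EE n →ₗ[ℝ] (Fin M → ℝ))
    (a : Fin M → ℝ) : G (volume.restrict K) (fun (j : Fin M) (x : EE n) => |L x j| ^ (2 : ℝ))
      (fun _ => 1) a = GK K L a := by
  unfold G GK
  rw [← lintegral_indicator hK]
  apply lintegral_congr
  intro x
  unfold kap
  by_cases h : x ∈ K
  · rw [Set.indicator_of_mem h, Set.indicator_of_mem h]
    simp only [Real.rpow_two, sq_abs, mul_one, one_mul]
    rfl
  · rw [Set.indicator_of_notMem h, Set.indicator_of_notMem h]; simp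

theorem GK_tendsto {n M : ℕ} {K : Set (EE n)} (hK : MeasurableSet K)
    (hb : Bornology.IsBounded K) (L : EE n →ₗ[ℝ] (Fin M → ℝ)) (a : ℕ → Fin M → ℝ) (g : Fin M → ℝ)
    (ha : ∀ i j, 0 < a i j) (hlim : ∀ j, Tendsto (fun i => a i j) atTop (𝓝 (g j))) :
    Tendsto (fun i => GK K L (a i)) atTop (𝓝 (GK K L g)) := by
  unfold GK
  apply tendsto_lintegral_of_dominated_convergence (kap K)
  · intro i
    exact (kap_meas hK).mul (fg_meas L _)
  · intro i
    apply Filter.Eventually.of_forall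
    intro x
    have : fg L (a i) x ≤ 1 := by
      unfold fg
      rw [ENNReal.ofReal_le_one, Real.exp_le_one_iff, neg_nonpos]
      exact Finset.sum_nonneg (fun j _ => mul_nonneg (ha i j).le (sq_nonneg _))
    calc kap K x * fg L (a i) x ≤ kap K x * 1 := by gcongr
      _ = kap K x := mul_one _
  · unfold kap
    rw [lintegral_indicator hK]
    simp only [lintegral_const, MeasurableSet.univ, Measure.restrict_apply, Set.univ_inter, one_mul]
    exact hb.measure_lt_top.ne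
  · apply Filter.Eventually.of_forall
    intro x
    apply ENNReal.Tendsto.const_mul
    · unfold fg
      apply ENNReal.tendsto_ofReal
      apply (Real.continuous_exp.tendsto _).comp
      apply Tendsto.neg
      apply tendsto_finset_sum
      intro j _
      exact (hlim j).mul_const _
    · right
      unfold kap
      by_cases h : x ∈ K
      · rw [Set.indicator_of_mem h]; simp
      · rw [Set.indicator_of_notMem h]; simp

theorem GK_lt_top {n M : ℕ} {K : Set (EE n)} (hK : MeasurableSet K)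
    (hb : Bornology.IsBounded K) (L : EE n →ₗ[ℝ] (Fin M → ℝ)) (g : Fin M → ℝ)
    (hg : ∀ j, 0 ≤ g j) : GK K L g ≠ ⊤ := by
  have h1 : GK K L g ≤ ∫⁻ x, kap K x := by
    apply lintegral_mono
    intro x
    have : fg L g x ≤ 1 := by
      unfold fg
      rw [ENNReal.ofReal_le_one, Real.exp_le_one_iff, neg_nonpos]
      exact Finset.sum_nonneg (fun j _ => mul_nonneg (hg j) (sq_nonneg _))
    calc kap K x * fg L g x ≤ kap K x * 1 := by gcongr
      _ = kap K x := mul_one _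
  have h2 : ∫⁻ x, kap K x < ⊤ := by
    unfold kap
    rw [lintegral_indicator hK]
    simp only [lintegral_const, MeasurableSet.univ, Measure.restrict_apply, Set.univ_inter, one_mul]
    exact hb.measure_lt_top
  exact (h1.trans_lt h2).ne

/-- J6: the strong (B)-inequality for Gaussian weights with arbitrary linear forms -/
theorem base_B {n M : ℕ} (rot : ∀ (Φ : EuclideanSpace ℝ (Fin n) → EuclideanSpace ℝ (Fin n) → ℝ≥0∞),
      Measurable (fun p : EuclideanSpace ℝ (Fin n) × EuclideanSpace ℝ (Fin n) => Φ p.1 p.2) →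
      ∫⁻ x, ∫⁻ y, Φ x y = ∫⁻ u, ∫⁻ v, Φ ((Real.sqrt 2)⁻¹ • (u + v)) ((Real.sqrt 2)⁻¹ • (u - v)))
    (step : ∀ (W : EuclideanSpace ℝ (Fin n) → EuclideanSpace ℝ (Fin n) → ℝ≥0∞),
      Measurable (fun p : EuclideanSpace ℝ (Fin n) × EuclideanSpace ℝ (Fin n) => W p.1 p.2) →
      (∀ x y, W x y = W y x) →
      (∀ x x' y y', W x y * W x' y' ≤ W ((2 : ℝ)⁻¹ • (x + x')) ((2 : ℝ)⁻¹ • (y + y')) ^ 2) →
      ∀ (L : EuclideanSpace ℝ (Fin n) →ₗ[ℝ] (Fin M → ℝ)) (α β : Fin M → ℝ), (∀ j, 0 < α j) →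
      (∀ j, 0 < β j) → II W L α β ≤ II (rotW W) L (fun j => 2 * α j * β j / (α j + β j))
        (fun j => (α j + β j) / 2))
    (K : Set (EuclideanSpace ℝ (Fin n))) (hK : MeasurableSet K)
    (hc : Convex ℝ K) (hs : ∀ x ∈ K, -x ∈ K) (hb : Bornology.IsBounded K)
    (L : EuclideanSpace ℝ (Fin n) →ₗ[ℝ] (Fin M → ℝ)) :
    TP (volume.restrict K) (fun j x => |L x j| ^ (2 : ℝ)) (fun _ => 1) (fun _ => 1)
      (fun _ => 1) := by
  intro v v' hv hv'
  rw [G_eq hK, G_eq hK, G_eq hK, ← II_eq hK]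
  have step2 : ∀ α β : Fin M → ℝ, (∀ j, 0 < α j) → (∀ j, 0 < β j) →
      II (WK K) L α β ≤ II (WK K) L
        (fun j => (ah 2 (α j, β j)).1) (fun j => (ah 2 (α j, β j)).2) := by
    intro α β hα hβ
    have s1 := step (WK K) (WK_meas hK) (WK_symm K) (WK_mid hc) L α β hα hβ
    have s2 := step (rotW (WK K)) (rotW_meas _ (WK_meas hK)) (rotW_symm hs)
      (rotW_mid _ (WK_mid hc)) L (fun j => 2 * α j * β j / (α j + β j))
        (fun j => (α j + β j) / 2)
      (fun j => by have := hα j; have := hβ j; positivity)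
      (fun j => by have := hα j; have := hβ j; positivity)
    rw [rotW_rotW] at s2
    exact s1.trans s2
  have iter : ∀ i : ℕ, II (WK K) L v v' ≤ II (WK K) L
      (fun j => (ah (2 * i) (v j, v' j)).1) (fun j => (ah (2 * i) (v j, v' j)).2) := by
    intro i
    induction i with
    | zero => exact le_refl _
    | succ i ih =>
      refine ih.trans ?_
      have := step2 (fun j => (ah (2 * i) (v j, v' j)).1) (fun j => (ah (2 * i) (v j, v' j)).2)
        (fun j => (ah_pos _ (hv j) (hv' j) _).1) (fun j => (ah_pos _ (hv j) (hv' j) _).2)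
      exact this
  have hlim1 : ∀ j, Tendsto (fun i => (ah (2 * i) (v j, v' j)).1) atTop
      (𝓝 (Real.sqrt (v j * v' j))) := fun j =>
    (ah_tendsto (v j, v' j) (hv j) (hv' j)).1.comp
      (tendsto_id.const_mul_atTop' (by norm_num : 0 < 2))
  have hlim2 : ∀ j, Tendsto (fun i => (ah (2 * i) (v j, v' j)).2) atTop
      (𝓝 (Real.sqrt (v j * v' j))) := fun j =>
    (ah_tendsto (v j, v' j) (hv j) (hv' j)).2.comp
      (tendsto_id.const_mul_atTop' (by norm_num : 0 < 2))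
  have T1 := GK_tendsto hK hb L (fun i j => (ah (2 * i) (v j, v' j)).1)
    (fun j => Real.sqrt (v j * v' j)) (fun i j => (ah_pos _ (hv j) (hv' j) _).1) hlim1
  have T2 := GK_tendsto hK hb L (fun i j => (ah (2 * i) (v j, v' j)).2)
    (fun j => Real.sqrt (v j * v' j)) (fun i j => (ah_pos _ (hv j) (hv' j) _).2) hlim2
  have hfin : GK K L (fun j => Real.sqrt (v j * v' j)) ≠ ⊤ :=
    GK_lt_top hK hb L _ (fun j => Real.sqrt_nonneg _)
  have T := ENNReal.Tendsto.mul T1 (Or.inr hfin) T2 (Or.inr hfin)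
  rw [sq]
  refine ge_of_tendsto T (Filter.Eventually.of_forall ?_)
  intro i
  have := iter i
  rw [II_eq hK (L := L) (a := fun j => (ah (2 * i) (v j, v' j)).1)] at this
  exact this

/-- the assembled Prekopa-Leindler inequality -/
theorem pln' (n : ℕ) (F G H : EuclideanSpace ℝ (Fin n) → ℝ≥0∞) (hF : Measurable F)
    (hG : Measurable G) (hH : Measurable H)
    (HH : ∀ x y, F x * G y ≤ H ((2 : ℝ)⁻¹ • (x + y)) ^ 2) :
    (∫⁻ x, F x) * (∫⁻ x, G x) ≤ (∫⁻ x, H x) ^ 2 :=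
  pln (fun F G H hF hG hH h => pl1 F G H hF hG hH h) n F G H hF hG hH HH

/-- strong (B)-inequality for Gaussian weights -/
theorem base_B' {n M : ℕ} (K : Set (EuclideanSpace ℝ (Fin n))) (hK : MeasurableSet K)
    (hc : Convex ℝ K) (hs : ∀ x ∈ K, -x ∈ K) (hb : Bornology.IsBounded K)
    (L : EuclideanSpace ℝ (Fin n) →ₗ[ℝ] (Fin M → ℝ)) :
    TP (volume.restrict K) (fun j x => |L x j| ^ (2 : ℝ)) (fun _ => 1) (fun _ => 1)
      (fun _ => 1) := by
  have hrot : ∀ (Φ : EuclideanSpace ℝ (Fin n) → EuclideanSpace ℝ (Fin n) → ℝ≥0∞),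
      Measurable (fun p : EuclideanSpace ℝ (Fin n) × EuclideanSpace ℝ (Fin n) => Φ p.1 p.2) →
      ∫⁻ x, ∫⁻ y, Φ x y =
        ∫⁻ u, ∫⁻ v, Φ ((Real.sqrt 2)⁻¹ • (u + v)) ((Real.sqrt 2)⁻¹ • (u - v)) :=
    fun Φ hΦ => rot volume Φ hΦ
  exact base_B hrot (fun W hm hsw hlc L α β hα hβ =>
    step hrot (fun W hW h1 h2 L κ hκ a => anderson (pln' n) W hW h1 h2 L κ hκ a)
      W hm hsw hlc L α β hα hβ) K hK hc hs hb L


end Pool.Agent.Helper584.BT
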