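import Mathlib
import Pool.Agent.Helper584.BT.Base

/-!
Mixing with Pareto laws: from exponent two to all exponents below two, one exponent per form.
-/

set_option autoImplicit false
open MeasureTheory Set Filter Topology
open scoped ENNReal

namespace Pool.Agent.Helper584.BT

theorem TP_iter' {E : Type*} [MeasurableSpace E] (μ : Measure E) [SFinite μ] {n : ℕ}
    (N : Fin n → E → ℝ) (hN : ∀ j, Measurable (N j)) (hN0 : ∀ j x, 0 ≤ N j x)
    (h : Fin n → ℝ → ℝ≥0∞) (hh : ∀ j, Measurable (h j))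
    (hmul : ∀ j s t, 0 < s → 0 < t → h j s * h j t ≤ h j (Real.sqrt (s * t)) ^ 2)
    (m : ℕ) (H : TP μ N (fun _ => 1) (fun _ => 1) (fun _ => 1)) (a b : Fin n → ℝ)
    (ha : ∀ j, 0 < a j) (hb : ∀ j, 0 < b j) :
    TP μ N (fun x => ∏ j, lap (h j) (a j * N j x) ^ m) (fun x => ∏ j, lap (h j) (b j * N j x) ^ m)
      (fun x => ∏ j, lap (h j) (Real.sqrt (a j * b j) * N j x) ^ m) := by
  have hl : ∀ (c : Fin n → ℝ) (S : Finset (Fin n)),
      Measurable (fun x => ∏ j ∈ S, lap (h j) (c j * N j x) ^ m) := by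
    intro c S
    refine Finset.measurable_prod S (fun j _ => ?_)
    exact ((measurable_lap (h j) (hh j)).comp ((hN j).const_mul (c j))).pow_const m
  have key : ∀ S : Finset (Fin n), TP μ N (fun x => ∏ j ∈ S, lap (h j) (a j * N j x) ^ m)
      (fun x => ∏ j ∈ S, lap (h j) (b j * N j x) ^ m)
      (fun x => ∏ j ∈ S, lap (h j) (Real.sqrt (a j * b j) * N j x) ^ m) := by
    intro S
    induction S using Finset.induction_on with
    | empty => simpa using H
    | insert j S hj ih =>
      have := TP_step_pow μ mpl1 N hN hN0 (h j) (hh j) (hmul j) m _ _ _ (hl a S) (hl b S)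
        (hl (fun j => Real.sqrt (a j * b j)) S) ih j (a j) (b j) (ha j) (hb j)
      simpa only [Finset.prod_insert hj] using this
  exact key Finset.univ

theorem lap_pareto_le_one (α : ℝ) (hα : 0 < α) (hα1 : α < 1) (l : ℝ) (hl : 0 ≤ l) :
    lap (pareto α) l ≤ 1 := by
  refine (lap_pareto_le α hα hα1 l hl).trans ?_
  rw [← ENNReal.ofReal_one]
  apply ENNReal.ofReal_le_ofReal
  have : 0 ≤ l ^ α / 2 := by positivity
  rw [div_le_one (by linarith)]
  linarith

/-- the limit of the approximants -/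
theorem approx_tendsto' {E : Type*} [MeasurableSpace E] (μ : Measure E) [IsFiniteMeasure μ] {M : ℕ}
    (A : Fin M → E → ℝ) (hA : ∀ j, Measurable (A j)) (hA0 : ∀ j x, 0 ≤ A j x)
    (q : Fin M → ℝ) (hq : ∀ j, 0 < q j ∧ q j < 2) (w : Fin M → ℝ) (hw : ∀ j, 0 < w j) :
    Tendsto (fun m : ℕ => ∫⁻ x, ∏ j,
      lap (pareto (q j / 2)) ((w j / C (q j / 2)) ^ (1 / (q j / 2)) * (m : ℝ) ^ (-(1 / (q j / 2)))
        * A j x ^ (2 : ℝ)) ^ m ∂μ) atTop
      (𝓝 (G μ (fun j x => A j x ^ (q j)) (fun _ => 1) w)) := by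
  have hα : ∀ j, 0 < q j / 2 := fun j => by have := (hq j).1; positivity
  have hα1 : ∀ j, q j / 2 < 1 := fun j => by have := (hq j).2; linarith
  have hC : ∀ j, 0 < C (q j / 2) := fun j => C_pos _ (hα j) (hα1 j)
  have hmeas : ∀ j, Measurable (fun x : E => A j x ^ (2 : ℝ)) := fun j => (hA j).pow_const _
  have key : ∀ (j : Fin M) (x : E) (m : ℕ),
      (w j / C (q j / 2)) ^ (1 / (q j / 2)) * (m : ℝ) ^ (-(1 / (q j / 2))) * A j x ^ (2 : ℝ)
      = (w j / C (q j / 2) * A j x ^ (q j)) ^ (1 / (q j / 2)) * (m : ℝ) ^ (-(1 / (q j / 2))) := by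
    intro j x m
    have h1 : (w j / C (q j / 2) * A j x ^ (q j)) ^ (1 / (q j / 2))
        = (w j / C (q j / 2)) ^ (1 / (q j / 2)) * A j x ^ (2 : ℝ) := by
      have hc := hC j
      have hwj := hw j
      have hA' := hA0 j x
      rw [Real.mul_rpow (by positivity) (by positivity), ← Real.rpow_mul (hA0 j x)]
      congr 2
      have := (hq j).1
      field_simp
    rw [h1]; ring
  have hG : G μ (fun j x => A j x ^ (q j)) (fun _ => 1) w
      = ∫⁻ x, ∏ j, ENNReal.ofReal
        (Real.exp (-(C (q j / 2) * (w j / C (q j / 2) * A j x ^ (q j))))) ∂μ := by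
    unfold G
    refine lintegral_congr (fun x => ?_)
    rw [← ENNReal.ofReal_prod_of_nonneg (fun j _ => (Real.exp_pos _).le), ← Real.exp_sum, mul_one,
      Finset.sum_neg_distrib]
    congr 3
    refine Finset.sum_congr rfl (fun j _ => ?_)
    have hc := hC j
    field_simp
  rw [hG]
  refine tendsto_lintegral_of_dominated_convergence' (fun _ => 1) ?_ ?_ ?_ ?_
  · intro l
    refine (Finset.measurable_prod _ (fun j _ => ?_)).aemeasurable
    exact ((measurable_lap _ (measurable_pareto _)).comp ((hmeas j).const_mul _)).pow_const _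
  · intro l
    refine Filter.Eventually.of_forall (fun x => ?_)
    refine Finset.prod_le_one' (fun j _ => ?_)
    rw [key]
    have hwj := hw j
    have hc := hC j
    have hA' := hA0 j x
    refine pow_le_one₀ zero_le (lap_pareto_le_one _ (hα j) (hα1 j) _ (by positivity))
  · simp
  · refine Filter.Eventually.of_forall (fun x => ?_)
    refine tendsto_prod_ennreal _ _ _ _ (fun j => ENNReal.ofReal_ne_top) (fun j => ?_)
    simp only [key]
    have hc := hC j
    have hwj := hw j
    have hA' := hA0 j x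
    exact lap_pareto_tendsto (q j / 2) (hα j) (hα1 j) (w j / C (q j / 2) * A j x ^ (q j))
      (by positivity)

/-- J7: mixing with Pareto laws, all exponents below two -/
theorem TP_lt_two {E : Type*} [MeasurableSpace E] (μ : Measure E) [IsFiniteMeasure μ] {M : ℕ}
    (A : Fin M → E → ℝ) (hA : ∀ j, Measurable (A j)) (hA0 : ∀ j x, 0 ≤ A j x)
    (H : TP μ (fun j x => A j x ^ (2 : ℝ)) (fun _ => 1) (fun _ => 1) (fun _ => 1))
    (q : Fin M → ℝ) (hq : ∀ j, 0 < q j ∧ q j < 2) :
    TP μ (fun j x => A j x ^ (q j)) (fun _ => 1) (fun _ => 1) (fun _ => 1) := by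
  have hα : ∀ j, 0 < q j / 2 := fun j => by have := (hq j).1; positivity
  have hα1 : ∀ j, q j / 2 < 1 := fun j => by have := (hq j).2; linarith
  have hC : ∀ j, 0 < C (q j / 2) := fun j => C_pos _ (hα j) (hα1 j)
  have hmeas : ∀ j, Measurable (fun x : E => A j x ^ (2 : ℝ)) := fun j => (hA j).pow_const _
  have hN0 : ∀ (j : Fin M) (x : E), 0 ≤ A j x ^ (2 : ℝ) := fun j x => by
    have := hA0 j x; positivity
  intro v v' hv hv'
  have t1 := approx_tendsto' μ A hA hA0 q hq v hv
  have t2 := approx_tendsto' μ A hA hA0 q hq v' hv'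
  have t3 := approx_tendsto' μ A hA hA0 q hq (fun j => Real.sqrt (v j * v' j))
    (fun j => Real.sqrt_pos.mpr (mul_pos (hv j) (hv' j)))
  have hfin : ∀ u : Fin M → ℝ, (∀ j, 0 < u j) →
      G μ (fun j x => A j x ^ (q j)) (fun _ => 1) u ≠ ∞ := by
    intro u hu
    refine ne_top_of_le_ne_top (measure_ne_top μ univ) ?_
    rw [← lintegral_one]
    unfold G
    refine lintegral_mono (fun x => ?_)
    rw [mul_one, ← ENNReal.ofReal_one]
    apply ENNReal.ofReal_le_ofReal
    rw [Real.exp_le_one_iff, neg_nonpos]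
    refine Finset.sum_nonneg (fun j _ => ?_)
    have := hA0 j x
    have := hu j
    positivity
  have l1 := ENNReal.Tendsto.mul t1 (Or.inr (hfin v' hv')) t2 (Or.inr (hfin v hv))
  have l2 := ENNReal.Tendsto.pow (n := 2) t3
  refine le_of_tendsto_of_tendsto l1 l2 ?_
  filter_upwards [eventually_gt_atTop 0] with m hm0
  have hm : (0 : ℝ) < (m : ℝ) := by exact_mod_cast hm0
  have ha : ∀ j, 0 < (v j / C (q j / 2)) ^ (1 / (q j / 2)) * (m : ℝ) ^ (-(1 / (q j / 2))) :=
    fun j => by
      have := hv j; have := hC j; positivity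
  have hb : ∀ j, 0 < (v' j / C (q j / 2)) ^ (1 / (q j / 2)) * (m : ℝ) ^ (-(1 / (q j / 2))) :=
    fun j => by
      have := hv' j; have := hC j; positivity
  have hs : ∀ j, Real.sqrt (((v j / C (q j / 2)) ^ (1 / (q j / 2)) * (m : ℝ) ^ (-(1 / (q j / 2))))
      * ((v' j / C (q j / 2)) ^ (1 / (q j / 2)) * (m : ℝ) ^ (-(1 / (q j / 2)))))
      = (Real.sqrt (v j * v' j) / C (q j / 2)) ^ (1 / (q j / 2))
        * (m : ℝ) ^ (-(1 / (q j / 2))) := by
    intro j
    have h1 := hv j
    have h2 := hv' j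
    have h3 := hC j
    generalize 1 / (q j / 2) = r
    generalize C (q j / 2) = c at *
    have e1 : (Real.sqrt (v j * v' j) / c) ^ r * (Real.sqrt (v j * v' j) / c) ^ r
        = (v j / c) ^ r * (v' j / c) ^ r := by
      rw [← Real.mul_rpow (by positivity) (by positivity),
        ← Real.mul_rpow (by positivity) (by positivity)]
      congr 1
      rw [div_mul_div_comm, div_mul_div_comm, Real.mul_self_sqrt (by positivity)]
    have e2 : ((v j / c) ^ r * (m : ℝ) ^ (-r)) * ((v' j / c) ^ r * (m : ℝ) ^ (-r))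
        = ((Real.sqrt (v j * v' j) / c) ^ r * (m : ℝ) ^ (-r))
          * ((Real.sqrt (v j * v' j) / c) ^ r * (m : ℝ) ^ (-r)) := by
      rw [mul_mul_mul_comm, mul_mul_mul_comm ((Real.sqrt (v j * v' j) / c) ^ r), e1]
    rw [e2, Real.sqrt_mul_self (by positivity)]
  have hIt := TP_iter' μ (fun j x => A j x ^ (2 : ℝ)) hmeas hN0 (fun j => pareto (q j / 2))
    (fun j => measurable_pareto _) (fun j => pareto_mul _ (hα j)) m H _ _ ha hb
  simp only [hs] at hIt
  have hl : ∀ (c : Fin M → ℝ), Measurable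
      (fun x : E => ∏ j, lap (pareto (q j / 2)) (c j * A j x ^ (2 : ℝ)) ^ m) := by
    intro c
    refine Finset.measurable_prod _ (fun j _ => ?_)
    exact ((measurable_lap _ (measurable_pareto _)).comp ((hmeas j).const_mul (c j))).pow_const m
  exact TP_zero μ _ hmeas hN0 _ _ _ (hl _) (hl _) (hl _) hIt

end Pool.Agent.Helper584.BT
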