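import Mathlib
import Pool.Agent.Helper584.BT.Gauss
import Pool.Agent.Helper584.BT.Mix

set_option autoImplicit false
open MeasureTheory Set Filter Topology
open scoped ENNReal

namespace Pool.Agent.Helper584.BT

theorem TP_le_two_G_tendsto {E : Type*} [MeasurableSpace E] (μ : Measure E) [IsFiniteMeasure μ]
    {M : ℕ} (A : Fin M → E → ℝ) (hA : ∀ j, Measurable (A j)) (hA0 : ∀ j x, 0 ≤ A j x)
    (q : Fin M → ℝ) (hq : ∀ j, 0 < q j) (qk : ℕ → Fin M → ℝ)
    (hqk : ∀ j, Tendsto (fun k => qk k j) atTop (𝓝 (q j)))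
    (v : Fin M → ℝ) (hv : ∀ j, 0 < v j) :
    Tendsto (fun k => G μ (fun j x => A j x ^ (qk k j)) (fun _ => 1) v) atTop
      (𝓝 (G μ (fun j x => A j x ^ (q j)) (fun _ => 1) v)) ∧
    G μ (fun j x => A j x ^ (q j)) (fun _ => 1) v ≠ ∞ := by
  have hle : ∀ (r : Fin M → ℝ) (x : E),
      ENNReal.ofReal (Real.exp (-∑ j, v j * A j x ^ (r j))) * 1 ≤ 1 := by
    intro r x
    rw [mul_one, ← ENNReal.ofReal_one]
    apply ENNReal.ofReal_le_ofReal
    rw [Real.exp_le_one_iff]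
    have : 0 ≤ ∑ j, v j * A j x ^ (r j) :=
      Finset.sum_nonneg fun j _ => mul_nonneg (hv j).le (Real.rpow_nonneg (hA0 j x) _)
    linarith
  have hfin : ∫⁻ _ : E, (1 : ℝ≥0∞) ∂μ ≠ ∞ := by
    rw [lintegral_const, one_mul]
    exact measure_ne_top μ _
  constructor
  · apply tendsto_lintegral_of_dominated_convergence (fun _ => (1 : ℝ≥0∞))
    · intro k
      have : Measurable (fun x => -∑ j, v j * A j x ^ (qk k j)) := by
        apply Measurable.neg
        apply Finset.measurable_fun_sum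
        intro j _
        exact ((hA j).pow_const _).const_mul _
      exact (ENNReal.measurable_ofReal.comp (Real.measurable_exp.comp this)).mul_const 1
    · intro k
      exact Filter.Eventually.of_forall fun x => hle _ x
    · exact hfin
    · refine Filter.Eventually.of_forall fun x => ?_
      simp only [mul_one]
      apply (ENNReal.continuous_ofReal.tendsto _).comp
      apply (Real.continuous_exp.tendsto _).comp
      apply Tendsto.neg
      apply tendsto_finsetSum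
      intro j _
      apply Tendsto.const_mul
      exact tendsto_const_nhds.rpow (hqk j) (Or.inr (hq j))
  · apply ne_top_of_le_ne_top hfin
    exact lintegral_mono fun x => hle _ x

/-- J8: exponents up to two -/
theorem TP_le_two {E : Type*} [MeasurableSpace E] (μ : Measure E) [IsFiniteMeasure μ] {M : ℕ}
    (A : Fin M → E → ℝ) (hA : ∀ j, Measurable (A j)) (hA0 : ∀ j x, 0 ≤ A j x)
    (H : ∀ q : Fin M → ℝ, (∀ j, 0 < q j ∧ q j < 2) →
      TP μ (fun j x => A j x ^ (q j)) (fun _ => 1) (fun _ => 1) (fun _ => 1))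
    (q : Fin M → ℝ) (hq : ∀ j, 0 < q j ∧ q j ≤ 2) :
    TP μ (fun j x => A j x ^ (q j)) (fun _ => 1) (fun _ => 1) (fun _ => 1) := by
  intro v v' hv hv'
  set qk : ℕ → Fin M → ℝ := fun k j => min (q j) (2 - 1 / ((k : ℝ) + 1)) with hqkdef
  have hqk : ∀ j, Tendsto (fun k => qk k j) atTop (𝓝 (q j)) := by
    intro j
    have h1 : Tendsto (fun k : ℕ => (2 : ℝ) - 1 / ((k : ℝ) + 1)) atTop (𝓝 (2 - 0)) :=
      tendsto_const_nhds.sub tendsto_one_div_add_atTop_nhds_zero_nat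
    have h2 : Tendsto (fun k : ℕ => min (q j) ((2 : ℝ) - 1 / ((k : ℝ) + 1))) atTop
        (𝓝 (min (q j) (2 - 0))) := tendsto_const_nhds.min h1
    rw [sub_zero, min_eq_left (hq j).2] at h2
    exact h2
  have hb : ∀ k j, 0 < qk k j ∧ qk k j < 2 := by
    intro k j
    have h1 : (0 : ℝ) < 1 / ((k : ℝ) + 1) := by positivity
    have h2 : 1 / ((k : ℝ) + 1) ≤ 1 := by
      rw [div_le_one (by positivity)]
      have : (0 : ℝ) ≤ k := Nat.cast_nonneg k
      linarith
    constructor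
    · exact lt_min (hq j).1 (by linarith)
    · exact lt_of_le_of_lt (min_le_right _ _) (by linarith)
  obtain ⟨t1, f1⟩ := TP_le_two_G_tendsto μ A hA hA0 q (fun j => (hq j).1) qk hqk v hv
  obtain ⟨t2, f2⟩ := TP_le_two_G_tendsto μ A hA hA0 q (fun j => (hq j).1) qk hqk v' hv'
  obtain ⟨t3, f3⟩ := TP_le_two_G_tendsto μ A hA hA0 q (fun j => (hq j).1) qk hqk
    (fun j => Real.sqrt (v j * v' j)) (fun j => Real.sqrt_pos.2 (mul_pos (hv j) (hv' j)))
  have t4 := ENNReal.Tendsto.mul t1 (Or.inr f2) t2 (Or.inr f1)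
  have t5 := ENNReal.Tendsto.pow (n := 2) t3
  exact le_of_tendsto_of_tendsto' t4 t5 fun k => H (qk k) (hb k) v v' hv hv'

/-- finite sums of powers of linear forms -/
def Elem {n : ℕ} (ψ : EuclideanSpace ℝ (Fin n) → ℝ) : Prop :=
  ∃ (M : ℕ) (w : Fin M → EuclideanSpace ℝ (Fin n)) (p : Fin M → ℝ),
    (∀ m, 0 < p m ∧ p m ≤ 2) ∧ ∀ x, ψ x = ∑ m, |inner ℝ (w m) x| ^ (p m)

/-- pointwise limits of such sums -/
def LimElem {n : ℕ} (ψ : EuclideanSpace ℝ (Fin n) → ℝ) : Prop :=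
  ∃ φ : ℕ → EuclideanSpace ℝ (Fin n) → ℝ, (∀ k, Elem (φ k)) ∧
    ∀ x, Tendsto (fun k => φ k x) atTop (𝓝 (ψ x))



/-- the multiplicative midpoint inequality for all exponents in `(0, 2]` -/
theorem TP_finite {n M : ℕ} (K : Set (EuclideanSpace ℝ (Fin n))) (hK : MeasurableSet K)
    (hc : Convex ℝ K) (hs : ∀ x ∈ K, -x ∈ K) (hb : Bornology.IsBounded K)
    (w : Fin M → EuclideanSpace ℝ (Fin n)) (q : Fin M → ℝ) (hq : ∀ j, 0 < q j ∧ q j ≤ 2) :
    TP (volume.restrict K) (fun j x => |inner ℝ (w j) x| ^ (q j)) (fun _ => 1) (fun _ => 1)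
      (fun _ => 1) := by
  haveI : IsFiniteMeasure (volume.restrict K) :=
    ⟨by rw [Measure.restrict_apply_univ]; exact hb.measure_lt_top⟩
  let L : EuclideanSpace ℝ (Fin n) →ₗ[ℝ] (Fin M → ℝ) :=
    LinearMap.pi (fun j => (innerₗ (EuclideanSpace ℝ (Fin n)) (w j)))
  have hL : ∀ x j, L x j = inner ℝ (w j) x := fun x j => rfl
  have h0 := base_B' K hK hc hs hb L
  simp only [hL] at h0
  have hm : ∀ j, Measurable (fun x : EuclideanSpace ℝ (Fin n) => |inner ℝ (w j) x|) := fun j =>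
    ((continuous_const.inner continuous_id).abs).measurable
  exact TP_le_two (volume.restrict K) (fun j x => |inner ℝ (w j) x|) hm
    (fun j x => abs_nonneg _)
    (fun q hq => TP_lt_two (volume.restrict K) (fun j x => |inner ℝ (w j) x|) hm
      (fun j x => abs_nonneg _) h0 q hq) q hq


theorem elem_scale584 {n M : ℕ} (w : Fin M → EuclideanSpace ℝ (Fin n)) (p : Fin M → ℝ)
    (s : ℝ) (x : EuclideanSpace ℝ (Fin n)) :
    ∑ m, |inner ℝ (w m) (Real.exp s • x)| ^ (p m) =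
      ∑ m, Real.exp (s * p m) * |inner ℝ (w m) x| ^ (p m) := by
  apply Finset.sum_congr rfl
  intro m _
  rw [inner_smul_right, abs_mul, abs_of_pos (Real.exp_pos s),
    Real.mul_rpow (Real.exp_pos s).le (abs_nonneg _), Real.exp_mul]

/-- J9 -/
theorem elem_mid {n : ℕ} (ψ : EuclideanSpace ℝ (Fin n) → ℝ) (h : Elem ψ)
    (K : Set (EuclideanSpace ℝ (Fin n))) (hK : MeasurableSet K)
    (hc : Convex ℝ K) (hs : ∀ x ∈ K, -x ∈ K) (hb : Bornology.IsBounded K) (s u : ℝ) :
    (∫⁻ x in K, ENNReal.ofReal (Real.exp (-ψ (Real.exp s • x)))) *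
      (∫⁻ x in K, ENNReal.ofReal (Real.exp (-ψ (Real.exp u • x)))) ≤
      (∫⁻ x in K, ENNReal.ofReal (Real.exp (-ψ (Real.exp ((s + u) / 2) • x)))) ^ 2 := by
  obtain ⟨M, w, p, hp, hψ⟩ := h
  have h1 := TP_finite K hK hc hs hb w p hp (fun m => Real.exp (s * p m))
    (fun m => Real.exp (u * p m)) (fun m => Real.exp_pos _) (fun m => Real.exp_pos _)
  have e : ∀ t : ℝ, ∀ x, ψ (Real.exp t • x) =
      ∑ m, Real.exp (t * p m) * |inner ℝ (w m) x| ^ (p m) := by
    intro t x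
    rw [hψ, elem_scale584]
  have e2 : ∀ m, Real.sqrt (Real.exp (s * p m) * Real.exp (u * p m)) =
      Real.exp ((s + u) / 2 * p m) := by
    intro m
    rw [← Real.exp_add, ← Real.exp_half]
    congr 1
    ring
  unfold G at h1
  simp only [mul_one, e2] at h1
  simp only [e]
  exact h1


theorem elem_nonneg584 {n : ℕ} {ψ : EuclideanSpace ℝ (Fin n) → ℝ} (h : Elem ψ) (x) : 0 ≤ ψ x := by
  obtain ⟨M, w, p, hp, hψ⟩ := h
  rw [hψ]
  exact Finset.sum_nonneg fun m _ => Real.rpow_nonneg (abs_nonneg _) _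

theorem elem_meas584 {n : ℕ} {ψ : EuclideanSpace ℝ (Fin n) → ℝ} (h : Elem ψ) : Measurable ψ := by
  obtain ⟨M, w, p, hp, hψ⟩ := h
  have : ψ = fun x => ∑ m, |inner ℝ (w m) x| ^ (p m) := funext hψ
  rw [this]
  apply Finset.measurable_sum
  intro m _
  exact ((continuous_const.inner continuous_id).abs.measurable).pow_const _

theorem lim_tendsto584 {n : ℕ} (ψ : EuclideanSpace ℝ (Fin n) → ℝ)
    (φ : ℕ → EuclideanSpace ℝ (Fin n) → ℝ) (hφ : ∀ k, Elem (φ k))
    (hlim : ∀ x, Tendsto (fun k => φ k x) atTop (𝓝 (ψ x)))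
    (K : Set (EuclideanSpace ℝ (Fin n))) (hb : Bornology.IsBounded K) (t : ℝ) :
    Tendsto (fun k => ∫⁻ x in K, ENNReal.ofReal (Real.exp (-φ k (Real.exp t • x)))) atTop
      (𝓝 (∫⁻ x in K, ENNReal.ofReal (Real.exp (-ψ (Real.exp t • x))))) := by
  apply tendsto_lintegral_of_dominated_convergence (fun _ => 1)
  · intro k
    exact ((((elem_meas584 (hφ k)).comp (measurable_const_smul _)).neg).exp).ennreal_ofReal
  · intro k
    refine Eventually.of_forall fun x => ?_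
    rw [← ENNReal.ofReal_one]
    apply ENNReal.ofReal_le_ofReal
    rw [Real.exp_le_one_iff]
    have := elem_nonneg584 (hφ k) (Real.exp t • x)
    linarith
  · rw [lintegral_one, Measure.restrict_apply_univ]
    exact hb.measure_lt_top.ne
  · refine Eventually.of_forall fun x => ?_
    apply ENNReal.tendsto_ofReal
    exact (Real.continuous_exp.tendsto _).comp (hlim _).neg

theorem lim_mid {n : ℕ} (ψ : EuclideanSpace ℝ (Fin n) → ℝ) (h : LimElem ψ)
    (K : Set (EuclideanSpace ℝ (Fin n))) (hK : MeasurableSet K)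
    (hc : Convex ℝ K) (hs : ∀ x ∈ K, -x ∈ K) (hb : Bornology.IsBounded K) (s u : ℝ) :
    (∫⁻ x in K, ENNReal.ofReal (Real.exp (-ψ (Real.exp s • x)))) *
      (∫⁻ x in K, ENNReal.ofReal (Real.exp (-ψ (Real.exp u • x)))) ≤
      (∫⁻ x in K, ENNReal.ofReal (Real.exp (-ψ (Real.exp ((s + u) / 2) • x)))) ^ 2 := by
  obtain ⟨φ, hφ, hlim⟩ := h
  have hT := lim_tendsto584 ψ φ hφ hlim K hb
  have hfin : ∀ t : ℝ, (∫⁻ x in K, ENNReal.ofReal (Real.exp (-ψ (Real.exp t • x)))) ≠ ⊤ := by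
    intro t
    have h1 : (∫⁻ x in K, ENNReal.ofReal (Real.exp (-ψ (Real.exp t • x)))) ≤
        volume K := by
      have h2 : (∫⁻ x in K, ENNReal.ofReal (Real.exp (-ψ (Real.exp t • x)))) ≤
          ∫⁻ _x in K, (1 : ℝ≥0∞) := by
        apply lintegral_mono
        intro x
        rw [← ENNReal.ofReal_one]
        apply ENNReal.ofReal_le_ofReal
        rw [Real.exp_le_one_iff]
        have : 0 ≤ ψ (Real.exp t • x) :=
          ge_of_tendsto' (hlim _) fun k => elem_nonneg584 (hφ k) _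
        linarith
      rwa [lintegral_one, Measure.restrict_apply_univ] at h2
    exact (h1.trans_lt hb.measure_lt_top).ne
  refine le_of_tendsto_of_tendsto'
    (ENNReal.Tendsto.mul (hT s) (Or.inr (hfin u)) (hT u) (Or.inr (hfin s)))
    (((ENNReal.continuous_pow 2).tendsto _).comp (hT ((s + u) / 2))) fun k => ?_
  exact elem_mid (φ k) (hφ k) K hK hc hs hb s u

theorem lm_dyadic (H : ℝ → ℝ≥0∞) (hmid : ∀ s u, H s * H u ≤ H ((s + u) / 2) ^ 2) (s u : ℝ) :
    ∀ n k : ℕ, k ≤ 2 ^ n → H s ^ ((k : ℝ) / 2 ^ n) * H u ^ (1 - (k : ℝ) / 2 ^ n) ≤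
      H ((k : ℝ) / 2 ^ n * s + (1 - (k : ℝ) / 2 ^ n) * u) := by
  intro n
  induction n with
  | zero =>
    intro k hk
    have hk' : k ≤ 1 := by simpa using hk
    interval_cases k <;> simp
  | succ n ih =>
    intro k hk
    have h2 : (0 : ℝ) < 2 ^ n := by positivity
    rcases Nat.even_or_odd' k with ⟨m, rfl | rfl⟩
    · have hm : m ≤ 2 ^ n := by rw [pow_succ] at hk; omega
      have h1 : ((2 * m : ℕ) : ℝ) / 2 ^ (n + 1) = (m : ℝ) / 2 ^ n := by
        push_cast
        rw [pow_succ]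
        field_simp
      rw [h1]
      exact ih m hm
    · have hm : m + 1 ≤ 2 ^ n := by rw [pow_succ] at hk; omega
      have i1 := ih m (by omega)
      have i2 := ih (m + 1) hm
      set a1 : ℝ := (m : ℝ) / 2 ^ n with ha1
      set a2 : ℝ := ((m + 1 : ℕ) : ℝ) / 2 ^ n with ha2
      have h1 : ((2 * m + 1 : ℕ) : ℝ) / 2 ^ (n + 1) = (a1 + a2) / 2 := by
        rw [ha1, ha2]
        push_cast
        rw [pow_succ]
        field_simp
        ring
      rw [h1]
      have p1 : 0 ≤ a1 := by positivity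
      have p2 : 0 ≤ a2 := by positivity
      have q2 : a2 ≤ 1 := by
        rw [ha2, div_le_one h2]
        exact_mod_cast hm
      have q1 : a1 ≤ 1 := by
        refine le_trans ?_ q2
        rw [ha1, ha2]
        gcongr
        push_cast
        linarith
      have e1 : ∀ x : ℝ≥0∞, (x ^ ((a1 + a2) / 2)) ^ 2 = x ^ a1 * x ^ a2 := by
        intro x
        rw [pow_two, ← ENNReal.rpow_add_of_nonneg _ _ (by positivity) (by positivity),
          ← ENNReal.rpow_add_of_nonneg _ _ p1 p2]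
        congr 1
        ring
      have e2 : ∀ x : ℝ≥0∞, (x ^ (1 - (a1 + a2) / 2)) ^ 2 = x ^ (1 - a1) * x ^ (1 - a2) := by
        intro x
        rw [pow_two, ← ENNReal.rpow_add_of_nonneg _ _ (by linarith) (by linarith),
          ← ENNReal.rpow_add_of_nonneg _ _ (by linarith) (by linarith)]
        congr 1
        ring
      rw [← ENNReal.pow_le_pow_left_iff (two_ne_zero), mul_pow, e1, e2]
      calc H s ^ a1 * H s ^ a2 * (H u ^ (1 - a1) * H u ^ (1 - a2)) =
          (H s ^ a1 * H u ^ (1 - a1)) * (H s ^ a2 * H u ^ (1 - a2)) := by ring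
        _ ≤ H (a1 * s + (1 - a1) * u) * H (a2 * s + (1 - a2) * u) := mul_le_mul' i1 i2
        _ ≤ H (((a1 * s + (1 - a1) * u) + (a2 * s + (1 - a2) * u)) / 2) ^ 2 := hmid _ _
        _ = _ := by
          congr 2
          ring

theorem lm_aux (H : ℝ → ℝ≥0∞) (hH : Antitone H) (hfin : ∀ t, H t ≠ ∞)
    (hmid : ∀ s u, H s * H u ≤ H ((s + u) / 2) ^ 2) (s u a b : ℝ) (ha : 0 ≤ a) (hb : 0 ≤ b)
    (hab : a + b = 1) (hsu : s ≤ u) : H s ^ a * H u ^ b ≤ H (a * s + b * u) := by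
  obtain rfl : b = 1 - a := by linarith
  by_cases hu : H u = 0
  · rcases eq_or_lt_of_le hb with h0 | h0
    · have h1 : a = 1 := by linarith
      subst h1
      simp
    · rw [hu, ENNReal.zero_rpow_of_pos h0, mul_zero]
      exact zero_le
  · have hs : H s ≠ 0 := fun h => hu (le_antisymm ((hH hsu).trans h.le) zero_le)
    set x := (H s).toReal with hx
    set y := (H u).toReal with hy
    have hx0 : 0 < x := ENNReal.toReal_pos hs (hfin s)
    have hy0 : 0 < y := ENNReal.toReal_pos hu (hfin u)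
    have hxs : H s = ENNReal.ofReal x := (ENNReal.ofReal_toReal (hfin s)).symm
    have hyu : H u = ENNReal.ofReal y := (ENNReal.ofReal_toReal (hfin u)).symm
    have hval : ∀ c : ℝ, H s ^ c * H u ^ (1 - c) = ENNReal.ofReal (x ^ c * y ^ (1 - c)) := by
      intro c
      rw [hxs, hyu, ENNReal.ofReal_rpow_of_pos hx0, ENNReal.ofReal_rpow_of_pos hy0,
        ← ENNReal.ofReal_mul (by positivity)]
    have hcont : Continuous fun c : ℝ => ENNReal.ofReal (x ^ c * y ^ (1 - c)) := by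
      refine ENNReal.continuous_ofReal.comp ?_
      exact (Real.continuous_const_rpow hx0.ne').mul
        ((Real.continuous_const_rpow hy0.ne').comp (continuous_const.sub continuous_id))
    have hlim : Tendsto (fun n : ℕ => (⌊a * 2 ^ n⌋₊ : ℝ) / 2 ^ n) atTop (𝓝 a) := by
      have h1 : Tendsto (fun n : ℕ => (2 : ℝ) ^ n) atTop atTop :=
        tendsto_pow_atTop_atTop_of_one_lt (by norm_num)
      exact (tendsto_nat_floor_mul_div_atTop ha).comp h1
    rw [hval]
    refine le_of_tendsto ((hcont.tendsto a).comp hlim) (Filter.Eventually.of_forall fun n => ?_)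
    have h2 : (0 : ℝ) < 2 ^ n := by positivity
    have hfl : (⌊a * 2 ^ n⌋₊ : ℝ) ≤ a * 2 ^ n := Nat.floor_le (by positivity)
    have hle : (⌊a * 2 ^ n⌋₊ : ℝ) / 2 ^ n ≤ a := by
      rw [div_le_iff₀ h2]; exact hfl
    have hk : ⌊a * 2 ^ n⌋₊ ≤ 2 ^ n := by
      have h3 : (⌊a * 2 ^ n⌋₊ : ℝ) ≤ 2 ^ n := by nlinarith
      exact_mod_cast h3
    have hd := lm_dyadic H hmid s u n _ hk
    simp only [Function.comp_apply]
    rw [← hval]
    refine hd.trans (hH ?_)
    nlinarith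

/-- J10: an antitone midpoint log-concave function is log-concave -/
theorem logconcave_of_mid (H : ℝ → ℝ≥0∞) (hH : Antitone H) (hfin : ∀ t, H t ≠ ∞)
    (hmid : ∀ s u, H s * H u ≤ H ((s + u) / 2) ^ 2) (s u a b : ℝ) (ha : 0 ≤ a) (hb : 0 ≤ b)
    (hab : a + b = 1) : H s ^ a * H u ^ b ≤ H (a * s + b * u) := by
  rcases le_total s u with h | h
  · exact lm_aux H hH hfin hmid s u a b ha hb hab h
  · have := lm_aux H hH hfin hmid u s b a hb ha (by linarith) h
    rw [mul_comm, add_comm]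
    exact this

theorem measure_smul_homothety {F : Type*} [NormedAddCommGroup F] [NormedSpace ℝ F]
    [FiniteDimensional ℝ F] [MeasurableSpace F] [BorelSpace F] (μ : Measure F) [μ.IsAddHaarMeasure]
    {s : ℝ} (hs : 0 < s) {h : F → ℝ≥0∞} (hh : Measurable h) :
    ∫⁻ y, h (s • y) ∂μ = ENNReal.ofReal ((s ^ Module.finrank ℝ F)⁻¹) * ∫⁻ z, h z ∂μ := by
  have h1 : ∫⁻ y, h (s • y) ∂μ = ∫⁻ z, h z ∂(Measure.map (s • ·) μ) := by
    rw [lintegral_map hh (measurable_const_smul s)]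
  rw [h1, Measure.map_addHaar_smul μ hs.ne', lintegral_smul_measure,
    abs_of_nonneg (by positivity)]
  rfl

/-- J11: change of variables -/
theorem measure_smul {n : ℕ} (ψ : EuclideanSpace ℝ (Fin n) → ℝ) (hψ : Measurable ψ)
    (K : Set (EuclideanSpace ℝ (Fin n))) (hK : MeasurableSet K) (t : ℝ) :
    (volume.withDensity (fun x => ENNReal.ofReal (Real.exp (-ψ x))))
        {y | ∃ x ∈ K, y = Real.exp t • x} =
      ENNReal.ofReal (Real.exp (n * t)) *
        ∫⁻ x in K, ENNReal.ofReal (Real.exp (-ψ (Real.exp t • x))) := by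
  have hc : 0 < Real.exp t := Real.exp_pos t
  set c : ℝ := Real.exp t with hcdef
  set S : Set (EuclideanSpace ℝ (Fin n)) := {y | ∃ x ∈ K, y = c • x} with hSdef
  have hmem : ∀ x, c • x ∈ S ↔ x ∈ K := by
    intro x
    constructor
    · rintro ⟨x', hx', h⟩
      have : x = x' := smul_right_injective _ hc.ne' h
      rwa [this]
    · intro hx
      exact ⟨x, hx, rfl⟩
  have hS : MeasurableSet S := by
    have : S = (fun y => c⁻¹ • y) ⁻¹' K := by
      ext y
      have h1 := hmem (c⁻¹ • y)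
      rw [smul_inv_smul₀ hc.ne'] at h1
      exact h1
    rw [this]
    exact measurable_const_smul c⁻¹ hK
  have hf : Measurable fun x : EuclideanSpace ℝ (Fin n) => ENNReal.ofReal (Real.exp (-ψ x)) := by
    fun_prop
  rw [withDensity_apply _ hS, ← lintegral_indicator hS, ← lintegral_indicator hK]
  have h1 := measure_smul_homothety (volume : Measure (EuclideanSpace ℝ (Fin n))) hc
    (hf.indicator hS)
  have h2 : (fun y => S.indicator (fun x => ENNReal.ofReal (Real.exp (-ψ x))) (c • y)) =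
      K.indicator (fun x => ENNReal.ofReal (Real.exp (-ψ (c • x)))) := by
    funext y
    by_cases hy : y ∈ K
    · rw [indicator_of_mem ((hmem y).2 hy), indicator_of_mem hy]
    · rw [indicator_of_notMem (fun h => hy ((hmem y).1 h)), indicator_of_notMem hy]
  rw [h2, finrank_euclideanSpace_fin] at h1
  rw [h1, ← mul_assoc, ← ENNReal.ofReal_mul (Real.exp_pos _).le]
  have h3 : Real.exp (n * t) * (c ^ n)⁻¹ = 1 := by
    rw [hcdef, ← Real.exp_nat_mul, mul_inv_cancel₀ (Real.exp_pos _).ne']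
  rw [h3, ENNReal.ofReal_one, one_mul]

theorem B_of_lim_elem {n : ℕ} (φ : EuclideanSpace ℝ (Fin n) → ℝ) (h : Elem φ) :
    Continuous φ ∧ (∀ x, 0 ≤ φ x) ∧
      ∀ x (s t : ℝ), s ≤ t → φ (Real.exp s • x) ≤ φ (Real.exp t • x) := by
  obtain ⟨M, w, p, hp, hφ⟩ := h
  refine ⟨?_, ?_, ?_⟩
  · have e : φ = fun x => ∑ m, |inner ℝ (w m) x| ^ (p m) := funext hφ
    rw [e]
    apply continuous_finsetSum
    intro m _
    apply Continuous.rpow_const
    · exact (continuous_const.inner continuous_id).abs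
    · intro x
      exact Or.inr (hp m).1.le
  · intro x
    rw [hφ]
    exact Finset.sum_nonneg fun m _ => Real.rpow_nonneg (abs_nonneg _) _
  · intro x s t hst
    rw [hφ, hφ]
    apply Finset.sum_le_sum
    intro m _
    rw [inner_smul_right, inner_smul_right, abs_mul, abs_mul, Real.abs_exp, Real.abs_exp]
    apply Real.rpow_le_rpow (by positivity) _ (hp m).1.le
    exact mul_le_mul_of_nonneg_right (Real.exp_le_exp.2 hst) (abs_nonneg _)

theorem B_of_lim_facts {n : ℕ} (ψ : EuclideanSpace ℝ (Fin n) → ℝ) (h : LimElem ψ) :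
    Measurable ψ ∧ (∀ x, 0 ≤ ψ x) ∧
      ∀ x (s t : ℝ), s ≤ t → ψ (Real.exp s • x) ≤ ψ (Real.exp t • x) := by
  obtain ⟨φ, h1, h2⟩ := h
  refine ⟨?_, ?_, ?_⟩
  · exact measurable_of_tendsto_metrizable
      (fun k => (B_of_lim_elem (φ k) (h1 k)).1.measurable) (tendsto_pi_nhds.2 h2)
  · intro x
    exact ge_of_tendsto' (h2 x) fun k => (B_of_lim_elem (φ k) (h1 k)).2.1 x
  · intro x s t hst
    exact le_of_tendsto_of_tendsto' (h2 _) (h2 _)
      fun k => (B_of_lim_elem (φ k) (h1 k)).2.2 x s t hst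

theorem B_of_lim_bdd {n : ℕ} (ψ : EuclideanSpace ℝ (Fin n) → ℝ) (h : LimElem ψ)
    (K : Set (EuclideanSpace ℝ (Fin n))) (hK : MeasurableSet K)
    (hc : Convex ℝ K) (hs : ∀ x ∈ K, -x ∈ K) (hbd : Bornology.IsBounded K)
    (s u a b : ℝ) (ha : 0 ≤ a) (hb : 0 ≤ b) (hab : a + b = 1) :
    (volume.withDensity (fun x => ENNReal.ofReal (Real.exp (-ψ x))))
          {y | ∃ x ∈ K, y = Real.exp s • x} ^ a *
        (volume.withDensity (fun x => ENNReal.ofReal (Real.exp (-ψ x))))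
          {y | ∃ x ∈ K, y = Real.exp u • x} ^ b ≤
      (volume.withDensity (fun x => ENNReal.ofReal (Real.exp (-ψ x))))
          {y | ∃ x ∈ K, y = Real.exp (a * s + b * u) • x} := by
  obtain ⟨hm, hnn, hmono⟩ := B_of_lim_facts ψ h
  rw [measure_smul ψ hm K hK, measure_smul ψ hm K hK, measure_smul ψ hm K hK]
  have hlc := logconcave_of_mid
    (fun t => ∫⁻ x in K, ENNReal.ofReal (Real.exp (-ψ (Real.exp t • x)))) (by
      intro s t hst
      apply lintegral_mono
      intro x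
      apply ENNReal.ofReal_le_ofReal
      rw [Real.exp_le_exp]
      exact neg_le_neg (hmono x s t hst)) (by
      intro t
      have h1 : ∫⁻ x in K, ENNReal.ofReal (Real.exp (-ψ (Real.exp t • x))) ≤ ∫⁻ _x in K, 1 := by
        apply lintegral_mono
        intro x
        rw [← ENNReal.ofReal_one]
        apply ENNReal.ofReal_le_ofReal
        rw [Real.exp_le_one_iff]
        linarith [hnn (Real.exp t • x)]
      rw [setLIntegral_one] at h1
      exact (h1.trans_lt hbd.measure_lt_top).ne)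
    (fun s u => lim_mid ψ h K hK hc hs hbd s u) s u a b ha hb hab
  rw [ENNReal.mul_rpow_of_nonneg _ _ ha, ENNReal.mul_rpow_of_nonneg _ _ hb, mul_mul_mul_comm]
  refine mul_le_mul' (le_of_eq ?_) hlc
  rw [ENNReal.ofReal_rpow_of_pos (Real.exp_pos _), ENNReal.ofReal_rpow_of_pos (Real.exp_pos _),
    ← ENNReal.ofReal_mul (Real.rpow_nonneg (Real.exp_nonneg _) _), ← Real.exp_mul,
    ← Real.exp_mul, ← Real.exp_add]
  congr 2
  ring

theorem B_of_lim_iSup (x : ℕ → ℝ≥0∞) (hx : Monotone x) (a : ℝ) (ha : 0 ≤ a) :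
    (⨆ R, x R) ^ a = ⨆ R, x R ^ a := by
  have h1 : Tendsto x atTop (𝓝 (⨆ R, x R)) := tendsto_atTop_iSup hx
  have h2 : Tendsto (fun R => x R ^ a) atTop (𝓝 ((⨆ R, x R) ^ a)) :=
    (ENNReal.continuous_rpow_const.tendsto _).comp h1
  have h3 : Monotone (fun R => x R ^ a) := fun i j hij => ENNReal.rpow_le_rpow (hx hij) ha
  exact tendsto_nhds_unique h2 (tendsto_atTop_iSup h3)

theorem B_of_lim_mono {n : ℕ} (K : Set (EuclideanSpace ℝ (Fin n))) (t : ℝ) :
    Monotone (fun R : ℕ => {y : EuclideanSpace ℝ (Fin n) |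
      ∃ x ∈ K ∩ Metric.closedBall 0 (R : ℝ), y = Real.exp t • x}) := by
  rintro R Q hRQ y ⟨x, hx, rfl⟩
  exact ⟨x, ⟨hx.1, Metric.closedBall_subset_closedBall (by exact_mod_cast hRQ) hx.2⟩, rfl⟩

theorem B_of_lim_union {n : ℕ} (K : Set (EuclideanSpace ℝ (Fin n))) (t : ℝ) :
    {y : EuclideanSpace ℝ (Fin n) | ∃ x ∈ K, y = Real.exp t • x} =
      ⋃ R : ℕ, {y : EuclideanSpace ℝ (Fin n) |
        ∃ x ∈ K ∩ Metric.closedBall 0 (R : ℝ), y = Real.exp t • x} := by
  ext y
  rw [mem_iUnion]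
  constructor
  · rintro ⟨x, hx, rfl⟩
    obtain ⟨R, hR⟩ := exists_nat_ge ‖x‖
    exact ⟨R, x, ⟨hx, by rwa [mem_closedBall_zero_iff]⟩, rfl⟩
  · rintro ⟨R, x, hx, rfl⟩
    exact ⟨x, hx.1, rfl⟩

/-- J12: the (B)-inequality for the class of limits -/
theorem B_of_lim {n : ℕ} (ψ : EuclideanSpace ℝ (Fin n) → ℝ) (h : LimElem ψ)
    (K : Set (EuclideanSpace ℝ (Fin n))) (hK : MeasurableSet K)
    (hc : Convex ℝ K) (hs : ∀ x ∈ K, -x ∈ K) (s u a b : ℝ) (ha : 0 ≤ a) (hb : 0 ≤ b)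
    (hab : a + b = 1) :
    (volume.withDensity (fun x => ENNReal.ofReal (Real.exp (-ψ x))))
          {y | ∃ x ∈ K, y = Real.exp s • x} ^ a *
        (volume.withDensity (fun x => ENNReal.ofReal (Real.exp (-ψ x))))
          {y | ∃ x ∈ K, y = Real.exp u • x} ^ b ≤
      (volume.withDensity (fun x => ENNReal.ofReal (Real.exp (-ψ x))))
          {y | ∃ x ∈ K, y = Real.exp (a * s + b * u) • x} := by
  obtain ⟨μ, hμ⟩ : ∃ μ : Measure (EuclideanSpace ℝ (Fin n)),
      μ = volume.withDensity (fun x => ENNReal.ofReal (Real.exp (-ψ x))) := ⟨_, rfl⟩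
  rw [← hμ, B_of_lim_union K s, B_of_lim_union K u, (B_of_lim_mono K s).measure_iUnion,
    (B_of_lim_mono K u).measure_iUnion,
    B_of_lim_iSup _ (fun i j hij => measure_mono (B_of_lim_mono K s hij)) a ha,
    B_of_lim_iSup _ (fun i j hij => measure_mono (B_of_lim_mono K u hij)) b hb,
    ENNReal.iSup_mul]
  apply iSup_le
  intro R
  rw [ENNReal.mul_iSup]
  apply iSup_le
  intro Q
  have h1 : ∀ T : ℕ, μ {y | ∃ x ∈ K ∩ Metric.closedBall 0 (T : ℝ), y = Real.exp s • x} ^ a *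
      μ {y | ∃ x ∈ K ∩ Metric.closedBall 0 (T : ℝ), y = Real.exp u • x} ^ b ≤
      μ {y | ∃ x ∈ K ∩ Metric.closedBall 0 (T : ℝ), y = Real.exp (a * s + b * u) • x} := by
    intro T
    rw [hμ]
    apply B_of_lim_bdd ψ h _ (hK.inter measurableSet_closedBall)
      (hc.inter (convex_closedBall _ _)) _
      (Metric.isBounded_closedBall.subset inter_subset_right) s u a b ha hb hab
    intro x hx
    refine ⟨hs x hx.1, ?_⟩
    rw [mem_closedBall_zero_iff, norm_neg]
    exact mem_closedBall_zero_iff.1 hx.2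
  refine (mul_le_mul' (ENNReal.rpow_le_rpow (measure_mono (B_of_lim_mono K s (le_max_left R Q)))
    ha) (ENNReal.rpow_le_rpow (measure_mono (B_of_lim_mono K u (le_max_right R Q))) hb)).trans ?_
  refine (h1 (max R Q)).trans (measure_mono ?_)
  rintro y ⟨x, hx, rfl⟩
  exact ⟨x, hx.1, rfl⟩

theorem elem_zero {n : ℕ} : Elem (fun _ : EuclideanSpace ℝ (Fin n) => (0 : ℝ)) :=
  ⟨0, Fin.elim0, Fin.elim0, fun m => m.elim0, fun x => by simp⟩

theorem elem_add {n : ℕ} {φ ψ : EuclideanSpace ℝ (Fin n) → ℝ} (h1 : Elem φ) (h2 : Elem ψ) :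
    Elem (fun x => φ x + ψ x) := by
  obtain ⟨M1, w1, p1, hp1, hφ⟩ := h1
  obtain ⟨M2, w2, p2, hp2, hψ⟩ := h2
  refine ⟨M1 + M2, Fin.append w1 w2, Fin.append p1 p2, fun m => ?_, fun x => ?_⟩
  · induction m using Fin.addCases with
    | left i => rw [Fin.append_left]; exact hp1 i
    | right i => rw [Fin.append_right]; exact hp2 i
  · rw [Fin.sum_univ_add]
    simp only [Fin.append_left, Fin.append_right]
    rw [hφ, hψ]

theorem elem_sum {n : ℕ} {ι : Type*} (t : Finset ι)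
    (φ : ι → EuclideanSpace ℝ (Fin n) → ℝ) (h : ∀ i ∈ t, Elem (φ i)) :
    Elem (fun x => ∑ i ∈ t, φ i x) := by
  classical
  induction t using Finset.induction_on with
  | empty => simpa using elem_zero
  | insert a t ha ih =>
    have h1 := elem_add (h a (Finset.mem_insert_self _ _))
      (ih fun i hi => h i (Finset.mem_insert_of_mem hi))
    have h2 : (fun x => ∑ i ∈ insert a t, φ i x) = fun x => φ a x + ∑ i ∈ t, φ i x := by
      funext x
      rw [Finset.sum_insert ha]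
    rw [h2]
    exact h1

theorem elem_single {n : ℕ} (c : ℝ) (hc : 0 ≤ c) (a : EuclideanSpace ℝ (Fin n)) (p : ℝ)
    (hp : 1 ≤ p) (hp2 : p ≤ 2) : Elem (fun x => c * |inner ℝ a x| ^ p) := by
  refine ⟨1, fun _ => (c ^ p⁻¹) • a, fun _ => p, fun _ => ⟨by linarith, hp2⟩, fun x => ?_⟩
  have hp0 : p ≠ 0 := by linarith
  simp only [Finset.univ_unique, Finset.sum_const, Finset.card_singleton, one_smul]
  rw [real_inner_smul_left, abs_mul, Real.mul_rpow (abs_nonneg _) (abs_nonneg _),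
    abs_of_nonneg (Real.rpow_nonneg hc _), ← Real.rpow_mul hc, inv_mul_cancel₀ hp0, Real.rpow_one]

theorem elem_simple {Ω : Type*} [MeasurableSpace Ω] (μ : Measure Ω) {n : ℕ} (p : ℝ)
    (hp : 1 ≤ p ∧ p ≤ 2) (g : SimpleFunc Ω (EuclideanSpace ℝ (Fin n)))
    (hg : MemLp g (ENNReal.ofReal p) μ) :
    Elem (fun x => ∫ ω, |inner ℝ (g ω) x| ^ p ∂μ) := by
  have hp0 : ENNReal.ofReal p ≠ 0 := by
    rw [Ne, ENNReal.ofReal_eq_zero]
    linarith
  have hint : Integrable g μ :=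
    (SimpleFunc.memLp_iff_integrable hp0 ENNReal.ofReal_ne_top).mp hg
  have key : ∀ x : EuclideanSpace ℝ (Fin n), ∫ ω, |inner ℝ (g ω) x| ^ p ∂μ =
      ∑ a ∈ g.range, μ.real (g ⁻¹' {a}) * |inner ℝ a x| ^ p := by
    intro x
    have hz : (fun a : EuclideanSpace ℝ (Fin n) => |inner ℝ a x| ^ p) 0 = 0 := by
      simp only [inner_zero_left, abs_zero]
      exact Real.zero_rpow (by linarith)
    have h1 := SimpleFunc.map_integral (μ := μ) g
      (fun a : EuclideanSpace ℝ (Fin n) => |inner ℝ a x| ^ p) hint hz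
    have h2 : Integrable (g.map (fun a : EuclideanSpace ℝ (Fin n) => |inner ℝ a x| ^ p)) μ :=
      ((SimpleFunc.integrable_iff_finMeasSupp.mp hint).map hz).integrable
    rw [SimpleFunc.integral_eq_integral _ h2] at h1
    simpa [smul_eq_mul] using h1
  have h3 : (fun x => ∫ ω, |inner ℝ (g ω) x| ^ p ∂μ) =
      fun x => ∑ a ∈ g.range, μ.real (g ⁻¹' {a}) * |inner ℝ a x| ^ p := funext key
  rw [h3]
  exact elem_sum _ _ fun a _ => elem_single _ measureReal_nonneg a p hp.1 hp.2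

theorem int_eq_norm {Ω : Type*} [MeasurableSpace Ω] (μ : Measure Ω) {n : ℕ} (p : ℝ)
    (hp : 1 ≤ p) (f : Ω → EuclideanSpace ℝ (Fin n))
    (hf : MemLp f (ENNReal.ofReal p) μ) (x : EuclideanSpace ℝ (Fin n)) :
    ∫ ω, |inner ℝ (f ω) x| ^ p ∂μ =
      (eLpNorm (fun ω => (inner ℝ (f ω) x : ℝ)) (ENNReal.ofReal p) μ).toReal ^ p := by
  have hp0 : ENNReal.ofReal p ≠ 0 := by
    rw [Ne, ENNReal.ofReal_eq_zero]
    linarith
  have hpp : (ENNReal.ofReal p).toReal = p := ENNReal.toReal_ofReal (by linarith)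
  have h1 : MemLp (fun ω => (inner ℝ (f ω) x : ℝ)) (ENNReal.ofReal p) μ := hf.inner_const x
  rw [h1.eLpNorm_eq_integral_rpow_norm hp0 ENNReal.ofReal_ne_top, hpp]
  simp only [Real.norm_eq_abs]
  have h2 : 0 ≤ ∫ ω, |(inner ℝ (f ω) x : ℝ)| ^ p ∂μ :=
    integral_nonneg fun ω => Real.rpow_nonneg (abs_nonneg _) _
  rw [ENNReal.toReal_ofReal (Real.rpow_nonneg h2 _), ← Real.rpow_mul h2,
    inv_mul_cancel₀ (by linarith), Real.rpow_one]

theorem tendsto_int {Ω : Type*} [MeasurableSpace Ω] (μ : Measure Ω) {n : ℕ} (p : ℝ)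
    (hp : 1 ≤ p) (f : Ω → EuclideanSpace ℝ (Fin n))
    (hf : MemLp f (ENNReal.ofReal p) μ) (g : ℕ → Ω → EuclideanSpace ℝ (Fin n))
    (hg : ∀ N, MemLp (g N) (ENNReal.ofReal p) μ)
    (hfg : ∀ N : ℕ, eLpNorm (f - g N) (ENNReal.ofReal p) μ < ENNReal.ofReal (1 / ((N : ℝ) + 1)))
    (x : EuclideanSpace ℝ (Fin n)) :
    Tendsto (fun N => ∫ ω, |inner ℝ (g N ω) x| ^ p ∂μ) atTop
      (𝓝 (∫ ω, |inner ℝ (f ω) x| ^ p ∂μ)) := by
  simp only [int_eq_norm μ p hp f hf x, int_eq_norm μ p hp _ (hg _) x]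
  have h1p : 1 ≤ ENNReal.ofReal p := by
    rw [← ENNReal.ofReal_one]
    exact ENNReal.ofReal_le_ofReal hp
  set F : Ω → ℝ := fun ω => (inner ℝ (f ω) x : ℝ) with hF
  set Gg : ℕ → Ω → ℝ := fun N ω => (inner ℝ (g N ω) x : ℝ) with hG
  have hFm : MemLp F (ENNReal.ofReal p) μ := hf.inner_const x
  have hGm : ∀ N, MemLp (Gg N) (ENNReal.ofReal p) μ := fun N => (hg N).inner_const x
  have hd : ∀ N, (eLpNorm (F - Gg N) (ENNReal.ofReal p) μ) ≤
      ENNReal.ofReal (‖x‖ * (1 / ((N : ℝ) + 1))) := by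
    intro N
    have h2 : eLpNorm (F - Gg N) (ENNReal.ofReal p) μ ≤
        ENNReal.ofReal ‖x‖ * eLpNorm (f - g N) (ENNReal.ofReal p) μ := by
      apply eLpNorm_le_mul_eLpNorm_of_ae_le_mul
      refine Eventually.of_forall fun ω => ?_
      have h3 : (F - Gg N) ω = (inner ℝ ((f - g N) ω) x : ℝ) := by
        simp [hF, hG, inner_sub_left]
      rw [h3, mul_comm]
      exact norm_inner_le_norm _ _
    refine h2.trans ?_
    rw [ENNReal.ofReal_mul (norm_nonneg _)]
    gcongr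
    exact (hfg N).le
  have hbound : ∀ N, |(eLpNorm (Gg N) (ENNReal.ofReal p) μ).toReal -
      (eLpNorm F (ENNReal.ofReal p) μ).toReal| ≤ ‖x‖ * (1 / ((N : ℝ) + 1)) := by
    intro N
    have hA : eLpNorm F (ENNReal.ofReal p) μ ≠ ⊤ := hFm.2.ne
    have hB : eLpNorm (Gg N) (ENNReal.ofReal p) μ ≠ ⊤ := (hGm N).2.ne
    have hD : eLpNorm (F - Gg N) (ENNReal.ofReal p) μ ≠ ⊤ :=
      ne_top_of_le_ne_top ENNReal.ofReal_ne_top (hd N)
    have hDr : (eLpNorm (F - Gg N) (ENNReal.ofReal p) μ).toReal ≤ ‖x‖ * (1 / ((N : ℝ) + 1)) :=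
      ENNReal.toReal_le_of_le_ofReal (by positivity) (hd N)
    have e1 : eLpNorm F (ENNReal.ofReal p) μ ≤ eLpNorm (F - Gg N) (ENNReal.ofReal p) μ +
        eLpNorm (Gg N) (ENNReal.ofReal p) μ := by
      have := eLpNorm_add_le (μ := μ) (f := F - Gg N) (g := Gg N)
        (hFm.1.sub (hGm N).1) (hGm N).1 h1p
      simpa using this
    have e2 : eLpNorm (Gg N) (ENNReal.ofReal p) μ ≤ eLpNorm (F - Gg N) (ENNReal.ofReal p) μ +
        eLpNorm F (ENNReal.ofReal p) μ := by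
      have := eLpNorm_add_le (μ := μ) (f := Gg N - F) (g := F)
        ((hGm N).1.sub hFm.1) hFm.1 h1p
      rw [eLpNorm_sub_comm] at this
      simpa using this
    have f1 : (eLpNorm F (ENNReal.ofReal p) μ).toReal ≤
        (eLpNorm (F - Gg N) (ENNReal.ofReal p) μ).toReal +
        (eLpNorm (Gg N) (ENNReal.ofReal p) μ).toReal := by
      rw [← ENNReal.toReal_add hD hB]
      exact ENNReal.toReal_mono (ENNReal.add_ne_top.mpr ⟨hD, hB⟩) e1
    have f2 : (eLpNorm (Gg N) (ENNReal.ofReal p) μ).toReal ≤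
        (eLpNorm (F - Gg N) (ENNReal.ofReal p) μ).toReal +
        (eLpNorm F (ENNReal.ofReal p) μ).toReal := by
      rw [← ENNReal.toReal_add hD hA]
      exact ENNReal.toReal_mono (ENNReal.add_ne_top.mpr ⟨hD, hA⟩) e2
    rw [abs_le]
    constructor <;> linarith
  have hlim : Tendsto (fun N => (eLpNorm (Gg N) (ENNReal.ofReal p) μ).toReal) atTop
      (𝓝 ((eLpNorm F (ENNReal.ofReal p) μ).toReal)) := by
    rw [tendsto_iff_dist_tendsto_zero]
    refine squeeze_zero (fun N => dist_nonneg) (fun N => ?_)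
      (show Tendsto (fun N : ℕ => ‖x‖ * (1 / ((N : ℝ) + 1))) atTop (𝓝 0) from ?_)
    · rw [Real.dist_eq]
      exact hbound N
    · have := (tendsto_one_div_add_atTop_nhds_zero_nat (𝕜 := ℝ)).const_mul ‖x‖
      simpa using this
  exact hlim.rpow_const (Or.inr (by linarith))

/-- J13: seminorms that embed in `L_p` -/
theorem lim_Lp {Ω : Type*} [MeasurableSpace Ω] (μ : Measure Ω) {n r : ℕ} (p : Fin r → ℝ)
    (hp : ∀ k, 1 ≤ p k ∧ p k ≤ 2) (f : Fin r → Ω → EuclideanSpace ℝ (Fin n))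
    (hf : ∀ k, MemLp (f k) (ENNReal.ofReal (p k)) μ) :
    LimElem (fun x => ∑ k, ∫ ω, |inner ℝ (f k ω) x| ^ (p k) ∂μ) := by
  have hex : ∀ (k : Fin r) (N : ℕ), ∃ g : SimpleFunc Ω (EuclideanSpace ℝ (Fin n)),
      eLpNorm (f k - ⇑g) (ENNReal.ofReal (p k)) μ < ENNReal.ofReal (1 / ((N : ℝ) + 1)) ∧
      MemLp g (ENNReal.ofReal (p k)) μ := by
    intro k N
    apply (hf k).exists_simpleFunc_eLpNorm_sub_lt ENNReal.ofReal_ne_top
    rw [Ne, ENNReal.ofReal_eq_zero, not_le]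
    positivity
  choose g hg1 hg2 using hex
  refine ⟨fun N x => ∑ k, ∫ ω, |inner ℝ (g k N ω) x| ^ (p k) ∂μ, fun N => ?_, fun x => ?_⟩
  · exact elem_sum _ _ fun k _ => elem_simple μ (p k) (hp k) (g k N) (hg2 k N)
  · apply tendsto_finset_sum
    intro k _
    exact tendsto_int μ (p k) (hp k).1 (f k) (hf k) (fun N => g k N) (hg2 k) (hg1 k) x

/-- J14: such a potential is convex and even -/
theorem convex_even {Ω : Type*} [MeasurableSpace Ω] (μ : Measure Ω) {n r : ℕ} (p : Fin r → ℝ)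
    (hp : ∀ k, 1 ≤ p k ∧ p k ≤ 2) (f : Fin r → Ω → EuclideanSpace ℝ (Fin n))
    (hf : ∀ k, MemLp (f k) (ENNReal.ofReal (p k)) μ) :
    ConvexOn ℝ Set.univ (fun x => ∑ k, ∫ ω, |inner ℝ (f k ω) x| ^ (p k) ∂μ) ∧
      ∀ x, (∑ k, ∫ ω, |inner ℝ (f k ω) (-x)| ^ (p k) ∂μ) =
        ∑ k, ∫ ω, |inner ℝ (f k ω) x| ^ (p k) ∂μ := by
  have hint : ∀ k, ∀ x : EuclideanSpace ℝ (Fin n),
      Integrable (fun ω => |inner ℝ (f k ω) x| ^ (p k)) μ := by
    intro k x
    have hp0 : (0 : ℝ) ≤ p k := by linarith [(hp k).1]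
    have h1 : Integrable (fun ω => ‖f k ω‖ ^ (p k)) μ := by
      have := (hf k).integrable_norm_rpow (by
        simp only [ne_eq, ENNReal.ofReal_eq_zero, not_le]; linarith [(hp k).1]) (by simp)
      rwa [ENNReal.toReal_ofReal hp0] at this
    have hm : AEStronglyMeasurable (fun ω => |inner ℝ (f k ω) x| ^ (p k)) μ := by
      have h2 : AEMeasurable (fun ω => inner ℝ (f k ω) x) μ :=
        ((hf k).1.inner aestronglyMeasurable_const).aemeasurable
      exact ((h2.abs).pow_const _).aestronglyMeasurable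
    refine (h1.mul_const (‖x‖ ^ (p k))).mono' hm (Eventually.of_forall fun ω => ?_)
    rw [Real.norm_eq_abs, abs_of_nonneg (Real.rpow_nonneg (abs_nonneg _) _),
      ← Real.mul_rpow (norm_nonneg _) (norm_nonneg _)]
    exact Real.rpow_le_rpow (abs_nonneg _) (abs_real_inner_le_norm _ _) hp0
  refine ⟨⟨convex_univ, ?_⟩, ?_⟩
  · intro x _ y _ a b ha hb hab
    simp only [smul_eq_mul, Finset.mul_sum, ← Finset.sum_add_distrib]
    apply Finset.sum_le_sum
    intro k _
    rw [← integral_const_mul, ← integral_const_mul, ← integral_add ((hint k x).const_mul a)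
      ((hint k y).const_mul b)]
    apply integral_mono (hint k _) (((hint k x).const_mul a).add ((hint k y).const_mul b))
    intro ω
    simp only [Pi.add_apply]
    have hp0 : (0 : ℝ) ≤ p k := by linarith [(hp k).1]
    have h1 : |inner ℝ (f k ω) (a • x + b • y)| ≤
        a * |inner ℝ (f k ω) x| + b * |inner ℝ (f k ω) y| := by
      rw [inner_add_right, inner_smul_right, inner_smul_right]
      refine (abs_add_le _ _).trans ?_
      rw [abs_mul, abs_mul, abs_of_nonneg ha, abs_of_nonneg hb]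
    have h2 := (convexOn_rpow (hp k).1).2
      (Set.mem_Ici.mpr (abs_nonneg (inner ℝ (f k ω) x)))
      (Set.mem_Ici.mpr (abs_nonneg (inner ℝ (f k ω) y))) ha hb hab
    simp only [smul_eq_mul] at h2
    exact (Real.rpow_le_rpow (abs_nonneg _) h1 hp0).trans h2
  · intro x
    simp only [inner_neg_right, abs_neg]

end Pool.Agent.Helper584.BT
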